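import Mathlib

/-!
Spectral radius bounds for entire functions with values in a Banach algebra:
a three circles inequality and a Liouville type statement.
-/

open Filter Topology Complex

namespace Pool.Agent.Lib.Pa5bb4a

variable {B : Type*} [NormedRing B] [NormedAlgebra ℂ B] [CompleteSpace B]

/-- All spectral values of `x` have modulus at most `m`. -/
def SR (x : B) (m : ℝ) : Prop := ∀ μ ∈ spectrum ℂ x, ‖μ‖ ≤ m

omit [CompleteSpace B] in
theorem SR.mono {x : B} {m m' : ℝ} (h : SR x m) (hm : m ≤ m') : SR x m' :=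
  fun μ hμ => (h μ hμ).trans hm

omit [CompleteSpace B] in
theorem SR.of_forall_gt {x : B} {m : ℝ} (h : ∀ m' > m, SR x m') : SR x m :=
  fun μ hμ => le_of_forall_gt_imp_ge_of_dense (fun m' hm' => h m' hm' μ hμ)

theorem SR.of_pow [NormOneClass B] {x : B} {m : ℝ} {n : ℕ} (hn : n ≠ 0) (hm : 0 ≤ m)
    (h : ‖x ^ n‖ ≤ m ^ n) : SR x m := by
  intro μ hμ
  have h1 : μ ^ n ∈ spectrum ℂ (x ^ n) := spectrum.pow_mem_pow x n hμ
  have h2 : ‖μ ^ n‖ ≤ ‖x ^ n‖ := spectrum.norm_le_norm_of_mem h1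
  rw [norm_pow] at h2
  exact (pow_le_pow_iff_left₀ (norm_nonneg _) hm hn).mp (h2.trans h)

theorem SR.of_norm [NormOneClass B] {x : B} {m : ℝ} (h : ‖x‖ ≤ m) : SR x m :=
  fun _ hμ => (spectrum.norm_le_norm_of_mem hμ).trans h

theorem SR.eventually_pow {x : B} [Nontrivial B] {m m' : ℝ} (h : SR x m) (hm : 0 ≤ m)
    (hm' : m < m') : ∀ᶠ n : ℕ in atTop, ‖x ^ n‖ < m' ^ n := by
  obtain ⟨M, hM⟩ : ∃ M : NNReal, (M : ℝ) = m' := ⟨⟨m', hm.trans hm'.le⟩, rfl⟩
  have h1 : spectralRadius ℂ x < (M : ENNReal) := by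
    apply spectrum.spectralRadius_lt_of_forall_lt
    intro z hz
    rw [← NNReal.coe_lt_coe, hM]
    simpa using (h z hz).trans_lt hm'
  have h2 := (spectrum.pow_nnnorm_pow_one_div_tendsto_nhds_spectralRadius x).eventually_lt_const h1
  filter_upwards [h2, eventually_ne_atTop 0] with n hn hn0
  have h3 : ((‖x ^ n‖₊ : ENNReal) ^ (1 / n : ℝ)) ^ (n : ℝ) < (M : ENNReal) ^ (n : ℝ) :=
    ENNReal.rpow_lt_rpow hn (by positivity)
  rw [← ENNReal.rpow_mul, one_div, inv_mul_cancel₀ (by exact_mod_cast hn0), ENNReal.rpow_one,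
    ENNReal.rpow_natCast, ← ENNReal.coe_pow, ENNReal.coe_lt_coe, ← NNReal.coe_lt_coe] at h3
  rw [← hM]
  simpa using h3

omit [CompleteSpace B] in
theorem SR.isUnit_sub {x : B} {m : ℝ} (h : SR x m) {μ : ℂ} (hμ : m < ‖μ‖) :
    IsUnit (algebraMap ℂ B μ - x) := by
  by_contra hc
  exact absurd (h μ hc) (not_le.mpr hμ)

/-- Dini type argument: on a compact set, spectral radius at most `m` gives, for `m' > m`, a uniform
bound on the powers `2 ^ k`. -/
theorem exists_pow_le_of_compact [Nontrivial B] {f : ℂ → B} {K : Set ℂ} (hK : IsCompact K)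
    (hf : Continuous f) {m m' : ℝ} (hm : 0 ≤ m) (hm' : m < m') (h : ∀ z ∈ K, SR (f z) m) :
    ∃ k₀ : ℕ, ∀ k ≥ k₀, ∀ z ∈ K, ‖f z ^ (2 ^ k)‖ ≤ m' ^ (2 ^ k) := by
  have hpos : 0 ≤ m' := hm.trans hm'.le
  have step : ∀ (x : B) (k : ℕ), ‖x ^ (2 ^ k)‖ ≤ m' ^ (2 ^ k) →
      ‖x ^ (2 ^ (k + 1))‖ ≤ m' ^ (2 ^ (k + 1)) := by
    intro x k hk
    have e1 : x ^ (2 ^ (k + 1)) = x ^ (2 ^ k) * x ^ (2 ^ k) := by
      rw [← pow_add]; congr 1; ring
    have e2 : m' ^ (2 ^ (k + 1)) = m' ^ (2 ^ k) * m' ^ (2 ^ k) := by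
      rw [← pow_add]; congr 1; ring
    rw [e1, e2]
    exact (norm_mul_le _ _).trans (mul_le_mul hk hk (norm_nonneg _) (by positivity))
  have step' : ∀ (x : B) (k l : ℕ), k ≤ l → ‖x ^ (2 ^ k)‖ ≤ m' ^ (2 ^ k) →
      ‖x ^ (2 ^ l)‖ ≤ m' ^ (2 ^ l) := by
    intro x k l hkl hk
    induction l, hkl using Nat.le_induction with
    | base => exact hk
    | succ l _ ih => exact step x l ih
  have h1 : ∀ z ∈ K, ∃ k : ℕ, ‖f z ^ (2 ^ k)‖ < m' ^ (2 ^ k) := by
    intro z hz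
    have h2 := (h z hz).eventually_pow hm hm'
    have h3 : Tendsto (fun k : ℕ => 2 ^ k) atTop atTop := tendsto_pow_atTop_atTop_of_one_lt one_lt_two
    exact (h3.eventually h2).exists
  choose! κ hκ using h1
  obtain ⟨t, ht, hcov⟩ := hK.elim_nhds_subcover
    (fun z => {w | ‖f w ^ (2 ^ κ z)‖ < m' ^ (2 ^ κ z)})
    (fun z hz => (isOpen_lt (by fun_prop) continuous_const).mem_nhds (hκ z hz))
  refine ⟨t.sup κ, fun k hk z hz => ?_⟩
  obtain ⟨w, hw, hzw⟩ := Set.mem_iUnion₂.mp (hcov hz)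
  exact step' (f z) (κ w) k ((Finset.le_sup hw).trans hk) (le_of_lt hzw)

/-- Three circles inequality for the spectral radius of an entire function. -/
theorem three_circles [NormOneClass B] {f : ℂ → B} (hf : Differentiable ℂ f)
    {l u m₁ m₂ n₁ n₂ : ℝ} (hlu : l < u) (hm₁ : 0 ≤ m₁) (hm₂ : 0 ≤ m₂) (h1 : m₁ < n₁) (h2 : m₂ < n₂)
    (hl : ∀ z : ℂ, ‖z‖ = Real.exp l → SR (f z) m₁) (hu : ∀ z : ℂ, ‖z‖ = Real.exp u → SR (f z) m₂)
    {z : ℂ} (hz1 : l ≤ z.re) (hz2 : z.re ≤ u) :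
    SR (f (exp z)) (n₁ ^ (1 - (z.re - l) / (u - l)) * n₂ ^ ((z.re - l) / (u - l))) := by
  have : Nontrivial B := NormOneClass.nontrivial
  have hn₁ : 0 ≤ n₁ := hm₁.trans h1.le
  have hn₂ : 0 ≤ n₂ := hm₂.trans h2.le
  have hsph : ∀ r : ℝ, {z : ℂ | ‖z‖ = r} = Metric.sphere (0 : ℂ) r := by
    intro r; ext z; simp
  obtain ⟨k₁, hk₁⟩ := exists_pow_le_of_compact (K := {z : ℂ | ‖z‖ = Real.exp l})
    (by rw [hsph]; exact isCompact_sphere _ _) hf.continuous hm₁ h1 hl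
  obtain ⟨k₂, hk₂⟩ := exists_pow_le_of_compact (K := {z : ℂ | ‖z‖ = Real.exp u})
    (by rw [hsph]; exact isCompact_sphere _ _) hf.continuous hm₂ h2 hu
  set k := max k₁ k₂
  set N := 2 ^ k with hN
  have hN0 : N ≠ 0 := by positivity
  have hF : Differentiable ℂ (fun w : ℂ => f (exp w) ^ N) := by fun_prop
  have hbound : BddAbove ((norm ∘ fun w : ℂ => f (exp w) ^ N) ''
      HadamardThreeLines.verticalClosedStrip l u) := by
    have hc : IsCompact (Metric.closedBall (0 : ℂ) (Real.exp u)) := isCompact_closedBall _ _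
    have hcont : ContinuousOn (fun w : ℂ => ‖f w ^ N‖) (Metric.closedBall (0 : ℂ) (Real.exp u)) :=
      (Continuous.continuousOn (by have := hf.continuous; fun_prop))
    obtain ⟨C, hC⟩ := (hc.bddAbove_image hcont)
    refine ⟨C, ?_⟩
    rintro _ ⟨w, hw, rfl⟩
    apply hC
    refine ⟨exp w, ?_, rfl⟩
    have : w.re ≤ u := hw.2
    simpa [Complex.norm_exp] using this
  have key := HadamardThreeLines.norm_le_interp_of_mem_verticalClosedStrip'
    (f := fun w : ℂ => f (exp w) ^ N) (z := z) (a := n₁ ^ N) (b := n₂ ^ N) hlu ⟨hz1, hz2⟩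
    hF.diffContOnCl hbound
    (fun w hw => hk₁ k (le_max_left _ _) (exp w) (by
      have : w.re = l := hw
      simp [Complex.norm_exp, this]))
    (fun w hw => hk₂ k (le_max_right _ _) (exp w) (by
      have : w.re = u := hw
      simp [Complex.norm_exp, this]))
  apply SR.of_pow hN0 (by positivity)
  refine key.trans (le_of_eq ?_)
  rw [mul_pow, ← Real.rpow_natCast, ← Real.rpow_natCast, ← Real.rpow_natCast, ← Real.rpow_natCast,
    ← Real.rpow_mul hn₁, ← Real.rpow_mul hn₂, ← Real.rpow_mul hn₁, ← Real.rpow_mul hn₂]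
  congr 2 <;> ring

/-- Liouville type statement: if an entire function has bounded spectral radius, then the
spectral radius is bounded everywhere by its value at `0`. -/
theorem liouville_SR [NormOneClass B] {f : ℂ → B} (hf : Differentiable ℂ f) {M m : ℝ}
    (hM : 0 ≤ M) (hm : 0 ≤ m) (hb : ∀ z, SR (f z) M) (h0 : SR (f 0) m) (z : ℂ) : SR (f z) m := by
  have : Nontrivial B := NormOneClass.nontrivial
  by_cases hz : z = 0
  · rw [hz]; exact h0
  apply SR.of_forall_gt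
  intro m' hm'
  -- choose intermediate values
  obtain ⟨m₁, hm1, hm1'⟩ := exists_between hm'
  obtain ⟨m₂, hm2, hm2'⟩ := exists_between hm1'
  have hm₁0 : 0 < m₁ := hm.trans_lt hm1
  have hm₂0 : 0 < m₂ := hm₁0.trans hm2
  -- near `0` the spectral radius is at most `m₁`
  obtain ⟨n, hn, hn0⟩ := ((h0.eventually_pow hm hm1).and (eventually_ne_atTop 0)).exists
  have hopen : IsOpen {w | ‖f w ^ n‖ < m₁ ^ n} :=
    isOpen_lt (by have := hf.continuous; fun_prop) continuous_const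
  obtain ⟨ε, hε, hball⟩ := Metric.isOpen_iff.mp hopen 0 hn
  have hzpos : 0 < ‖z‖ := norm_pos_iff.mpr hz
  obtain ⟨δ, hδ, hδε, hδz⟩ : ∃ δ : ℝ, 0 < δ ∧ δ < ε ∧ δ < ‖z‖ :=
    ⟨min ε ‖z‖ / 2, by positivity,
      (half_lt_self (lt_min hε hzpos)).trans_le (min_le_left _ _),
      (half_lt_self (lt_min hε hzpos)).trans_le (min_le_right _ _)⟩
  set l := Real.log δ
  have hl : Real.exp l = δ := Real.exp_log hδ
  have hzl : l < Real.log ‖z‖ := Real.log_lt_log hδ hδz
  have hsl : ∀ w : ℂ, ‖w‖ = Real.exp l → SR (f w) m₁ := by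
    intro w hw
    rw [hl] at hw
    have hwb : w ∈ Metric.ball (0 : ℂ) ε := by simpa [hw] using hδε
    exact SR.of_pow hn0 hm₁0.le (le_of_lt (hball hwb))
  have hexp : exp (Complex.log z) = z := Complex.exp_log hz
  have hre : (Complex.log z).re = Real.log ‖z‖ := Complex.log_re z
  -- let the outer radius tend to infinity
  have hlim : Tendsto (fun u : ℝ => m₂ ^ (1 - (Real.log ‖z‖ - l) / (u - l)) *
      (M + 1) ^ ((Real.log ‖z‖ - l) / (u - l))) atTop (𝓝 (m₂ ^ (1 - (0:ℝ)) * (M + 1) ^ (0:ℝ))) := by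
    have h1 : Tendsto (fun u : ℝ => (Real.log ‖z‖ - l) / (u - l)) atTop (𝓝 0) :=
      Tendsto.div_atTop tendsto_const_nhds (tendsto_atTop_add_const_right _ _ tendsto_id)
    have h2 : Tendsto (fun u : ℝ => 1 - (Real.log ‖z‖ - l) / (u - l)) atTop (𝓝 (1 - 0)) :=
      tendsto_const_nhds.sub h1
    exact ((Real.continuousAt_const_rpow hm₂0.ne').tendsto.comp h2).mul
      ((Real.continuousAt_const_rpow (by positivity)).tendsto.comp h1)
  rw [sub_zero, Real.rpow_one, Real.rpow_zero, mul_one] at hlim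
  have hev := hlim.eventually_lt_const hm2'
  obtain ⟨u, hu1, hu2⟩ := (hev.and (eventually_gt_atTop (Real.log ‖z‖))).exists
  have key := three_circles hf (l := l) (u := u) (m₁ := m₁) (m₂ := M) (n₁ := m₂) (n₂ := M + 1)
    (hzl.trans hu2) hm₁0.le hM hm2 (by linarith) hsl (fun w _ => hb w) (z := Complex.log z)
    (by rw [hre]; exact hzl.le) (by rw [hre]; exact hu2.le)
  rw [hexp, hre] at key
  exact key.mono hu1.le

end Pool.Agent.Lib.Pa5bb4a
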