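import Mathlib
import Pool.Agent.Lib.Pa5bb4a.Cont

/-!
The key estimate and the operators `D_a`.
-/

open Filter Topology Complex

namespace Pool.Agent.Lib.Pa5bb4a

variable {A B : Type*} [NormedRing A] [NormedAlgebra ℂ A] [CompleteSpace A] [CStarAlgebra B]

theorem exists_curve (a : A) : ∃ E E' : ℂ → A, Differentiable ℂ E ∧ Differentiable ℂ E' ∧
    (∀ z, E z * E' z = 1) ∧ (∀ z, E' z * E z = 1) ∧ E 0 = 1 ∧ HasDerivAt E a 0 := by
  let _ : NormedAlgebra ℚ A := NormedAlgebra.restrictScalars ℚ ℂ A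
  refine ⟨fun z => NormedSpace.exp (z • a), fun z => NormedSpace.exp ((-z) • a), ?_, ?_, ?_, ?_,
    ?_, ?_⟩
  · intro z
    exact (hasDerivAt_exp_smul_const a z).differentiableAt
  · intro z
    have h1 := (hasDerivAt_exp_smul_const a (-z)).differentiableAt
    exact h1.comp z differentiableAt_id.neg
  · intro z
    beta_reduce
    rw [neg_smul, ← NormedSpace.exp_add_of_commute (Commute.refl (z • a)).neg_right,
      add_neg_cancel, NormedSpace.exp_zero]
  · intro z
    beta_reduce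
    rw [neg_smul, ← NormedSpace.exp_add_of_commute (Commute.refl (z • a)).neg_left,
      neg_add_cancel, NormedSpace.exp_zero]
  · simp
  · have h1 := hasDerivAt_exp_smul_const a (0 : ℂ)
    simpa using h1

/-- The key estimate. -/
theorem key_estimate [Nontrivial B] (T : A →L[ℂ] B) (h1 : T 1 = 1) (hs : Function.Surjective T)
    (hinv : ∀ x, IsUnit x → IsUnit (T x)) (a : A) :
    ∃ C : ℝ, 0 ≤ C ∧ ∀ (y : A) (δ ν : ℝ), 0 < δ → ‖T y - algebraMap ℂ B ν‖ ≤ ν - δ →
      IsUnit (T y) ∧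
      ‖Ring.inverse (T y) * (T (a * y) - T a * T y) * Ring.inverse (T y)‖ ≤ C / δ := by
  obtain ⟨E, E', hE, hE', hEE', hE'E, hE0, hEa⟩ := exists_curve a
  obtain ⟨C₀, hC₀, hpre⟩ := T.exists_preimage_norm_le hs
  have hinv' : ∀ x, IsUnit x → IsUnit ((T : A →ₗ[ℂ] B) x) := hinv
  have h1' : (T : A →ₗ[ℂ] B) 1 = 1 := h1
  have hEu : ∀ z, IsUnit (E z) := fun z => ⟨⟨E z, E' z, hEE' z, hE'E z⟩, rfl⟩
  have hGu : ∀ z, IsUnit (T (E z)) := fun z => hinv _ (hEu z)
  have hGd : Differentiable ℂ (fun z => T (E z)) := by fun_prop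
  have hinvd : Differentiable ℂ (fun z => Ring.inverse (T (E z))) := fun z =>
    DifferentiableAt.comp (g := Ring.inverse) z (differentiableAt_inverse (𝕜 := ℂ) (hGu z)) (hGd z)
  set f : A → ℂ → B := fun w z => Ring.inverse (T (E z)) * T (E z * w) with hf
  have hfd : ∀ w, Differentiable ℂ (f w) := by
    intro w
    have : Differentiable ℂ (fun z => T (E z * w)) := by fun_prop
    exact hinvd.mul this
  have hf0 : ∀ w, f w 0 = T w := by
    intro w
    simp [hf, hE0, h1]
  have hfsub : ∀ w w' z, f (w - w') z = f w z - f w' z := by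
    intro w w' z
    simp only [hf, mul_sub, map_sub]
  have hfalg : ∀ (c : ℂ) z, f (algebraMap ℂ A c) z = algebraMap ℂ B c := by
    intro c z
    simp only [hf, Algebra.algebraMap_eq_smul_one, mul_smul_comm, mul_one, map_smul]
    rw [Ring.inverse_mul_cancel _ (hGu z)]
  have hfsmul : ∀ (c : ℂ) w z, f (c • w) z = c • f w z := by
    intro c w z
    simp only [hf, mul_smul_comm, map_smul]
  -- crude bound
  have hcrude : ∀ w z, SR (f w z) (‖w‖ * ‖(1 : A)‖) := by
    intro w z μ hμ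
    apply spectrum.norm_le_norm_mul_of_mem
    intro hc
    apply hμ
    have h2 : IsUnit (T (E z * (algebraMap ℂ A μ - w))) := hinv _ ((hEu z).mul hc)
    have h3 : algebraMap ℂ B μ - f w z =
        Ring.inverse (T (E z)) * T (E z * (algebraMap ℂ A μ - w)) := by
      rw [← hfalg μ z, ← hfsub]
    change IsUnit (algebraMap ℂ B μ - f w z)
    rw [h3]
    exact (hGu z).ringInverse.mul h2
  have hSR : ∀ w m z, 0 ≤ m → SR (T w) m → SR (f w z) m := by
    intro w m z hm h2
    exact liouville_SR (hfd w) (by positivity) hm (hcrude w) (by rwa [hf0]) z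
  -- invertibility
  have hunit : ∀ w (ν : ℝ) z, ‖T w - algebraMap ℂ B ν‖ < ν → IsUnit (f w z) := by
    intro w ν z hν
    have hνpos : 0 < ν := (norm_nonneg _).trans_lt hν
    have h2 : SR (T (w - algebraMap ℂ A ν)) ‖T w - algebraMap ℂ B ν‖ := by
      have e1 : T (algebraMap ℂ A ν) = algebraMap ℂ B ν := by
        rw [Algebra.algebraMap_eq_smul_one, map_smul, h1, Algebra.algebraMap_eq_smul_one]
      rw [map_sub, e1]
      exact SR.of_norm le_rfl
    have h3 := hSR _ _ z (norm_nonneg _) h2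
    have h4 := h3.isUnit_sub (μ := -ν) (by
      rw [norm_neg, Complex.norm_real, Real.norm_of_nonneg hνpos.le]; exact hν)
    rw [hfsub, hfalg] at h4
    have h5 : algebraMap ℂ B (-ν) - (f w z - algebraMap ℂ B ν) = -(f w z) := by
      rw [map_neg]; abel
    rw [h5] at h4
    simpa using h4.neg
  -- constant
  obtain ⟨C₁, hC₁⟩ : ∃ C₁ : ℝ, ∀ z ∈ Metric.closedBall (0 : ℂ) 1,
      ‖T‖ * ‖E' z‖ * C₀ * ‖T (E z)‖ ≤ C₁ := by
    have hc : ContinuousOn (fun z => ‖T‖ * ‖E' z‖ * C₀ * ‖T (E z)‖) (Metric.closedBall (0 : ℂ) 1) := by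
      have := hE'.continuous
      have := hE.continuous
      fun_prop
    obtain ⟨C₁, h⟩ := (isCompact_closedBall (0 : ℂ) 1).bddAbove_image hc
    exact ⟨C₁, fun z hz => h ⟨z, hz, rfl⟩⟩
  have hC₁0 : 0 ≤ C₁ := le_trans (by positivity) (hC₁ 0 (by simp))
  refine ⟨C₁, hC₁0, ?_⟩
  intro y δ ν hδ hν
  have hν' : ‖T y - algebraMap ℂ B ν‖ < ν := by linarith
  have hFu : ∀ z, IsUnit (f y z) := fun z => hunit y ν z hν'
  -- bound on the inverse
  have hbound : ∀ z ∈ Metric.closedBall (0 : ℂ) 1, ‖Ring.inverse (f y z)‖ ≤ C₁ / δ := by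
    intro z hz
    set g := Ring.inverse (f y z) with hg
    obtain ⟨z', hz', hz'n⟩ := hpre (T (E z) * star g)
    set w := E' z * z' with hw
    have hfw : f w z = star g := by
      simp only [hf, hw, ← mul_assoc, hEE' z, one_mul, hz']
      rw [Ring.inverse_mul_cancel _ (hGu z), one_mul]
    have hTw : ‖T w‖ ≤ C₁ * ‖g‖ := by
      calc ‖T w‖ ≤ ‖T‖ * ‖w‖ := T.le_opNorm _
        _ ≤ ‖T‖ * (‖E' z‖ * ‖z'‖) := by gcongr; exact norm_mul_le _ _
        _ ≤ ‖T‖ * (‖E' z‖ * (C₀ * ‖T (E z) * star g‖)) := by gcongr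
        _ ≤ ‖T‖ * (‖E' z‖ * (C₀ * (‖T (E z)‖ * ‖g‖))) := by
          gcongr
          exact (norm_mul_le _ _).trans (by rw [norm_star])
        _ = (‖T‖ * ‖E' z‖ * C₀ * ‖T (E z)‖) * ‖g‖ := by ring
        _ ≤ C₁ * ‖g‖ := by gcongr; exact hC₁ z hz
    have hSRg : SR (g * star g) (‖T w‖ / δ) := by
      intro μ hμ
      by_contra hcon
      push Not at hcon
      have hμ0 : 0 < ‖μ‖ := lt_of_le_of_lt (by positivity) hcon
      have hμne : μ ≠ 0 := norm_pos_iff.mp hμ0
      apply hμ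
      have h2 : IsUnit (f (y - μ⁻¹ • w) z) := by
        apply hunit _ ν
        rw [map_sub, map_smul]
        calc ‖T y - μ⁻¹ • T w - algebraMap ℂ B ν‖
            = ‖(T y - algebraMap ℂ B ν) - μ⁻¹ • T w‖ := by congr 1; abel
          _ ≤ ‖T y - algebraMap ℂ B ν‖ + ‖μ⁻¹ • T w‖ := norm_sub_le _ _
          _ = ‖T y - algebraMap ℂ B ν‖ + ‖T w‖ / ‖μ‖ := by
            rw [norm_smul, norm_inv, inv_mul_eq_div]
          _ < (ν - δ) + δ := by
            apply add_lt_add_of_le_of_lt hν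
            rw [div_lt_iff₀ hδ] at hcon
            rw [div_lt_iff₀ hμ0]
            linarith
          _ = ν := by ring
      have h3 : algebraMap ℂ B μ - g * star g = algebraMap ℂ B μ * (g * f (y - μ⁻¹ • w) z) := by
        rw [hfsub, hfsmul, hfw, mul_sub, hg, Ring.inverse_mul_cancel _ (hFu z), ← hg]
        rw [mul_sub, mul_one, mul_smul_comm, Algebra.algebraMap_eq_smul_one, smul_mul_assoc,
          one_mul, smul_smul, mul_inv_cancel₀ hμne, one_smul]
      change IsUnit (algebraMap ℂ B μ - g * star g)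
      rw [h3]
      exact ((isUnit_iff_ne_zero.mpr hμne).map (algebraMap ℂ B)).mul ((hFu z).ringInverse.mul h2)
    have hnorm : ‖g‖ * ‖g‖ ≤ ‖T w‖ / δ := by
      have : IsStarNormal (g * star g) := (IsSelfAdjoint.mul_star_self g).isStarNormal
      have h2 := norm_le_of_SR (by positivity) hSRg
      rwa [CStarRing.norm_self_mul_star] at h2
    rcases (norm_nonneg g).eq_or_lt with h0 | hpos
    · rw [← h0]; positivity
    · rw [le_div_iff₀ hδ]
      have h3 : ‖g‖ * ‖g‖ * δ ≤ C₁ * ‖g‖ := by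
        rw [le_div_iff₀ hδ] at hnorm
        exact hnorm.trans hTw
      nlinarith
  -- Cauchy estimate
  have hHd : Differentiable ℂ (fun z => Ring.inverse (f y z)) := fun z =>
    DifferentiableAt.comp (g := Ring.inverse) z (differentiableAt_inverse (𝕜 := ℂ) (hFu z)) (hfd y z)
  have hcauchy := Complex.norm_deriv_le_of_forall_mem_sphere_norm_le (c := 0) (R := 1)
    (f := fun z => Ring.inverse (f y z)) (C := C₁ / δ) one_pos hHd.diffContOnCl
    (fun z hz => hbound z (Metric.sphere_subset_closedBall hz))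
  rw [div_one] at hcauchy
  have hTyu : IsUnit (T y) := by have := hFu 0; rwa [hf0] at this
  refine ⟨hTyu, ?_⟩
  -- compute the derivative
  have hG' : HasDerivAt (fun z => T (E z)) (T a) 0 := T.hasFDerivAt.comp_hasDerivAt 0 hEa
  have hinvG' : HasDerivAt (fun z => Ring.inverse (T (E z))) (-(T a)) 0 := by
    have h2 : HasFDerivAt (Ring.inverse : B → B)
        (-ContinuousLinearMap.mulLeftRight ℂ B ↑(1 : Bˣ)⁻¹ ↑(1 : Bˣ)⁻¹) ((1 : Bˣ) : B) :=
      hasFDerivAt_ringInverse (𝕜 := ℂ) (1 : Bˣ)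
    have h3 : T (E 0) = ((1 : Bˣ) : B) := by rw [hE0, h1]; rfl
    have h2' := h2
    rw [← h3] at h2'
    have h4 := h2'.comp_hasDerivAt (0 : ℂ) hG'
    refine h4.congr_deriv ?_
    simp [ContinuousLinearMap.mulLeftRight_apply]
  have hTEy : HasDerivAt (fun z => T (E z * y)) (T (a * y)) 0 := by
    have h2 : HasDerivAt (fun z => E z * y) (a * y) 0 := hEa.mul_const y
    exact T.hasFDerivAt.comp_hasDerivAt 0 h2
  have hF' : HasDerivAt (f y) (T (a * y) - T a * T y) 0 := by
    have h2 := hinvG'.mul hTEy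
    refine h2.congr_deriv ?_
    simp only [hE0, h1, one_mul, Ring.inverse_one]
    rw [neg_mul]; abel
  have hH' : HasDerivAt (fun z => Ring.inverse (f y z))
      (-(Ring.inverse (T y) * (T (a * y) - T a * T y) * Ring.inverse (T y))) 0 := by
    obtain ⟨v, hv⟩ := hTyu
    have h2 : HasFDerivAt (Ring.inverse : B → B)
        (-ContinuousLinearMap.mulLeftRight ℂ B ↑v⁻¹ ↑v⁻¹) (v : B) :=
      hasFDerivAt_ringInverse (𝕜 := ℂ) v
    have h3 : f y 0 = (v : B) := by rw [hf0, hv]
    rw [← h3] at h2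
    have h4 := h2.comp_hasDerivAt (0 : ℂ) hF'
    refine h4.congr_deriv ?_
    rw [← hv, Ring.inverse_unit]
    simp [ContinuousLinearMap.mulLeftRight_apply]
  rw [hH'.deriv, norm_neg] at hcauchy
  exact hcauchy

end Pool.Agent.Lib.Pa5bb4a
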