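import Mathlib

/-!
A bounded bilinear map on real continuous functions which vanishes on zero products
is balanced at the identity function.
-/

open Filter Topology

namespace Pool.Agent.Lib.Pa5bb4a

theorem sign_bound {V W E : Type*} [AddCommGroup V] [Module ℝ V] [AddCommGroup W] [Module ℝ W]
    [NormedAddCommGroup E] [NormedSpace ℝ E] (φ : V →ₗ[ℝ] W →ₗ[ℝ] E) {ι : Type*} [DecidableEq ι]
    (s : Finset ι) (α : ι → V) (β : ι → W) (K : ℝ) (x : V) (y : W)
    (h : ∀ σ : ι → ℝ, (∀ i, |σ i| ≤ 1) →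
      ‖φ (x + ∑ i ∈ s, σ i • α i) (y + ∑ i ∈ s, σ i • β i)‖ ≤ K) :
    ‖φ x y + ∑ i ∈ s, φ (α i) (β i)‖ ≤ K := by
  induction s using Finset.induction_on generalizing x y with
  | empty => simpa using h 0 (by simp)
  | insert j s hj ih =>
    rw [Finset.sum_insert hj]
    have h1 : ∀ τ : ℝ, |τ| ≤ 1 →
        ‖φ (x + τ • α j) (y + τ • β j) + ∑ i ∈ s, φ (α i) (β i)‖ ≤ K := by
      intro τ hτ
      apply ih
      intro σ hσ
      have h2 := h (Function.update σ j τ) (by
        intro i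
        by_cases hi : i = j
        · subst hi; simpa using hτ
        · simpa [Function.update_of_ne hi] using hσ i)
      rw [Finset.sum_insert hj, Finset.sum_insert hj] at h2
      have e0 : ∀ i ∈ s, Function.update σ j τ i = σ i := by
        intro i hi
        rw [Function.update_of_ne (by rintro rfl; exact hj hi)]
      have e1 : ∑ i ∈ s, Function.update σ j τ i • α i = ∑ i ∈ s, σ i • α i :=
        Finset.sum_congr rfl (fun i hi => by rw [e0 i hi])
      have e1' : ∑ i ∈ s, Function.update σ j τ i • β i = ∑ i ∈ s, σ i • β i :=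
        Finset.sum_congr rfl (fun i hi => by rw [e0 i hi])
      rw [e1, e1', Function.update_self, ← add_assoc, ← add_assoc] at h2
      exact h2
    have hp := h1 1 (by simp)
    have hm := h1 (-1) (by simp)
    have e2 : φ x y + (φ (α j) (β j) + ∑ i ∈ s, φ (α i) (β i)) =
        (1 / 2 : ℝ) • ((φ (x + (1 : ℝ) • α j) (y + (1 : ℝ) • β j) + ∑ i ∈ s, φ (α i) (β i)) +
          (φ (x + (-1 : ℝ) • α j) (y + (-1 : ℝ) • β j) + ∑ i ∈ s, φ (α i) (β i))) := by
      simp only [one_smul, neg_smul, map_add, map_neg, LinearMap.add_apply, LinearMap.neg_apply]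
      module
    rw [e2, norm_smul]
    calc ‖(1 / 2 : ℝ)‖ * ‖_‖ ≤ ‖(1 / 2 : ℝ)‖ * (K + K) := by
          gcongr
          exact (norm_add_le _ _).trans (add_le_add hp hm)
      _ = K := by norm_num; ring

theorem sign_bound' {V W E : Type*} [AddCommGroup V] [Module ℝ V] [AddCommGroup W] [Module ℝ W]
    [NormedAddCommGroup E] [NormedSpace ℝ E] (φ : V →ₗ[ℝ] W →ₗ[ℝ] E) {ι : Type*} [DecidableEq ι]
    (s : Finset ι) (α : ι → V) (β : ι → W) (K : ℝ)
    (h : ∀ σ : ι → ℝ, (∀ i, |σ i| ≤ 1) →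
      ‖φ (∑ i ∈ s, σ i • α i) (∑ i ∈ s, σ i • β i)‖ ≤ K) :
    ‖∑ i ∈ s, φ (α i) (β i)‖ ≤ K := by
  have := sign_bound φ s α β K 0 0 (by simpa using h)
  simpa using this

/-- The tent function. -/
noncomputable def tent (u : ℝ) : ℝ := max 0 (1 - |u|)

theorem tent_nonneg (u : ℝ) : 0 ≤ tent u := le_max_left _ _

theorem tent_eq_zero {u : ℝ} (h : 1 ≤ |u|) : tent u = 0 := by
  unfold tent; exact max_eq_left (by linarith)

theorem tent_of_le {u : ℝ} (h : |u| ≤ 1) : tent u = 1 - |u| := by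
  unfold tent; exact max_eq_right (by linarith)

theorem continuous_tent : Continuous tent := by unfold tent; fun_prop

theorem tent_pair (u : ℝ) : tent (u - ⌊u⌋) + tent (u - (⌊u⌋ + 1 : ℤ)) = 1 := by
  have h1 := Int.floor_le u
  have h2 := Int.lt_floor_add_one u
  have e1 : |u - ⌊u⌋| = u - ⌊u⌋ := abs_of_nonneg (by linarith)
  have e2 : |u - (⌊u⌋ + 1 : ℤ)| = ⌊u⌋ + 1 - u := by
    push_cast
    rw [abs_of_nonpos (by linarith)]; ring
  rw [tent_of_le (by rw [e1]; linarith), tent_of_le (by rw [e2]; linarith), e1, e2]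
  ring

theorem tent_other (u : ℝ) {i : ℤ} (h1 : i ≠ ⌊u⌋) (h2 : i ≠ ⌊u⌋ + 1) : tent (u - i) = 0 := by
  apply tent_eq_zero
  have h3 := Int.floor_le u
  have h4 := Int.lt_floor_add_one u
  rcases lt_or_gt_of_ne h1 with h | h
  · have : (i : ℝ) + 1 ≤ ⌊u⌋ := by exact_mod_cast h
    exact (by linarith : (1 : ℝ) ≤ u - i).trans (le_abs_self _)
  · have h5 : ⌊u⌋ + 1 < i := lt_of_le_of_ne h (Ne.symm h2)
    have h6 : ⌊u⌋ + 2 ≤ i := by omega
    have : (⌊u⌋ : ℝ) + 2 ≤ i := by exact_mod_cast h6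
    exact (by linarith : (1 : ℝ) ≤ -(u - i)).trans (neg_le_abs _)

theorem tent_sum_eq (s : Finset ℤ) (u : ℝ) (h1 : ⌊u⌋ ∈ s) (h2 : ⌊u⌋ + 1 ∈ s) :
    ∑ i ∈ s, tent (u - i) = 1 := by
  have hsub : ({⌊u⌋, ⌊u⌋ + 1} : Finset ℤ) ⊆ s := by
    intro i hi
    simp only [Finset.mem_insert, Finset.mem_singleton] at hi
    rcases hi with rfl | rfl <;> assumption
  rw [← Finset.sum_subset hsub]
  · rw [Finset.sum_pair (by omega)]
    exact tent_pair u
  · intro i _ hi
    simp only [Finset.mem_insert, Finset.mem_singleton, not_or] at hi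
    exact tent_other u hi.1 hi.2

theorem tent_sum_le (s : Finset ℤ) (u : ℝ) : ∑ i ∈ s, tent (u - i) ≤ 1 := by
  classical
  rw [← tent_sum_eq (s ∪ {⌊u⌋, ⌊u⌋ + 1}) u (by simp) (by simp)]
  exact Finset.sum_le_sum_of_subset_of_nonneg Finset.subset_union_left
    (fun i _ _ => tent_nonneg _)

/-- The wider bump. -/
noncomputable def bump (u : ℝ) : ℝ := tent (u - 1) + tent u + tent (u + 1)

theorem bump_nonneg (u : ℝ) : 0 ≤ bump u :=
  add_nonneg (add_nonneg (tent_nonneg _) (tent_nonneg _)) (tent_nonneg _)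

theorem continuous_bump : Continuous bump := by
  have := continuous_tent
  unfold bump; fun_prop

theorem bump_eq_one {u : ℝ} (h : |u| ≤ 1) : bump u = 1 := by
  have h' := abs_le.mp h
  unfold bump
  rcases le_total 0 u with h0 | h0
  · rw [tent_of_le h, tent_of_le (u := u - 1) (by rw [abs_le]; constructor <;> linarith),
      tent_eq_zero (u := u + 1) (by rw [abs_of_nonneg (by linarith)]; linarith), abs_of_nonneg h0,
      abs_of_nonpos (by linarith : u - 1 ≤ 0)]
    ring
  · rw [tent_of_le h, tent_of_le (u := u + 1) (by rw [abs_le]; constructor <;> linarith),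
      tent_eq_zero (u := u - 1) (by rw [abs_of_nonpos (by linarith)]; linarith), abs_of_nonpos h0,
      abs_of_nonneg (by linarith : 0 ≤ u + 1)]
    ring

theorem bump_eq_zero {u : ℝ} (h : 2 ≤ |u|) : bump u = 0 := by
  unfold bump
  have h1 : 1 ≤ |u - 1| := by
    rcases le_abs.mp h with h | h
    · exact le_abs.mpr (Or.inl (by linarith))
    · exact le_abs.mpr (Or.inr (by linarith))
  have h2 : 1 ≤ |u + 1| := by
    rcases le_abs.mp h with h | h
    · exact le_abs.mpr (Or.inl (by linarith))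
    · exact le_abs.mpr (Or.inr (by linarith))
  rw [tent_eq_zero h1, tent_eq_zero h2, tent_eq_zero (by linarith)]
  ring

theorem bump_sum_le (s : Finset ℤ) (u : ℝ) : ∑ i ∈ s, bump (u - i) ≤ 3 := by
  unfold bump
  rw [Finset.sum_add_distrib, Finset.sum_add_distrib]
  have h1 := tent_sum_le s (u - 1)
  have h2 := tent_sum_le s u
  have h3 := tent_sum_le s (u + 1)
  have e1 : ∑ i ∈ s, tent (u - i - 1) = ∑ i ∈ s, tent (u - 1 - i) :=
    Finset.sum_congr rfl (fun i _ => by congr 1; ring)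
  have e3 : ∑ i ∈ s, tent (u - i + 1) = ∑ i ∈ s, tent (u + 1 - i) :=
    Finset.sum_congr rfl (fun i _ => by congr 1; ring)
  rw [e1, e3]
  linarith

/-- Balancedness of bounded bilinear maps vanishing on zero products. -/
theorem zero_product {E : Type*} [NormedAddCommGroup E] [NormedSpace ℝ E]
    (φ : C(ℝ, ℝ) →ₗ[ℝ] C(ℝ, ℝ) →ₗ[ℝ] E) {R M : ℝ}
    (hb : ∀ (p q : C(ℝ, ℝ)) (P Q : ℝ), (∀ t, |t| ≤ R → |p t| ≤ P) → (∀ t, |t| ≤ R → |q t| ≤ Q) →
      ‖φ p q‖ ≤ M * P * Q)
    (hz : ∀ p q : C(ℝ, ℝ), p * q = 0 → φ p q = 0) :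
    φ (ContinuousMap.id ℝ) 1 = φ 1 (ContinuousMap.id ℝ) := by
  classical
  set X : C(ℝ, ℝ) := ContinuousMap.id ℝ with hX
  have hXt : ∀ t, X t = t := fun t => rfl
  have main : ∀ ε : ℝ, 0 < ε → ‖φ X 1 - φ 1 X‖ ≤ 9 * M * ε := by
    intro ε hε
    obtain ⟨L, hL⟩ := exists_nat_ge (R / ε + 1)
    set s : Finset ℤ := Finset.Icc (-(L : ℤ)) L with hs
    set e : ℤ → C(ℝ, ℝ) := fun i => ⟨fun t => tent (t / ε - i), by
      have := continuous_tent; fun_prop⟩ with he
    set η : ℤ → C(ℝ, ℝ) := fun i => ⟨fun t => bump (t / ε - i), by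
      have := continuous_bump; fun_prop⟩ with hη
    have het : ∀ i t, e i t = tent (t / ε - i) := fun i t => rfl
    have hηt : ∀ i t, η i t = bump (t / ε - i) := fun i t => rfl
    -- sum of the tents
    have hsum : ∀ t, |t| ≤ R → ∑ i ∈ s, e i t = 1 := by
      intro t ht
      simp only [het]
      have h1 : |t / ε| ≤ R / ε := by
        rw [abs_div, abs_of_pos hε]; gcongr
      have h2 := abs_le.mp h1
      have h3 := Int.floor_le (t / ε)
      have h4 := Int.lt_floor_add_one (t / ε)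
      have h5 : ((-(L : ℤ) : ℤ) : ℝ) < ⌊t / ε⌋ + 1 := by push_cast; linarith
      have h6 : ((⌊t / ε⌋ : ℤ) : ℝ) + 1 ≤ (L : ℤ) := by push_cast; linarith
      have h5' : -(L : ℤ) < ⌊t / ε⌋ + 1 := by exact_mod_cast h5
      have h6' : ⌊t / ε⌋ + 1 ≤ (L : ℤ) := by exact_mod_cast h6
      apply tent_sum_eq
      · rw [hs, Finset.mem_Icc]; omega
      · rw [hs, Finset.mem_Icc]; omega
    -- vanishing products
    have hprod : ∀ i, e i * (1 - η i) = 0 := by
      intro i
      ext t
      simp only [ContinuousMap.mul_apply, ContinuousMap.sub_apply, ContinuousMap.one_apply,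
        ContinuousMap.zero_apply, het, hηt]
      by_cases h : |t / ε - i| ≤ 1
      · rw [bump_eq_one h, sub_self, mul_zero]
      · rw [tent_eq_zero (le_of_lt (not_le.mp h)), zero_mul]
    have hloc : ∀ t, |t| ≤ R → (∑ i ∈ s, e i) t = 1 := by
      intro t ht
      rw [ContinuousMap.coe_sum, Finset.sum_apply]
      exact hsum t ht
    -- localisation
    have h1 : φ X 1 = ∑ i ∈ s, φ (X * e i) (η i) := by
      have e1 : φ X 1 = φ (X * ∑ i ∈ s, e i) 1 := by
        rw [← sub_eq_zero, ← LinearMap.sub_apply, ← map_sub, ← norm_le_zero_iff]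
        refine (hb _ _ 0 1 ?_ ?_).trans (by simp)
        · intro t ht
          rw [ContinuousMap.sub_apply, ContinuousMap.mul_apply, hloc t ht]
          simp
        · intro t _; simp
      rw [e1, Finset.mul_sum, map_sum, LinearMap.sum_apply]
      apply Finset.sum_congr rfl
      intro i _
      rw [← sub_eq_zero, ← map_sub]
      apply hz
      rw [mul_assoc, hprod, mul_zero]
    have h2 : φ 1 X = ∑ i ∈ s, φ (e i) (X * η i) := by
      have e1 : φ 1 X = φ (∑ i ∈ s, e i) X := by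
        rw [← sub_eq_zero, ← LinearMap.sub_apply, ← map_sub, ← norm_le_zero_iff]
        refine (hb _ _ 0 R ?_ ?_).trans (by simp)
        · intro t ht
          rw [ContinuousMap.sub_apply, hloc t ht]
          simp
        · intro t ht; exact ht
      rw [e1, map_sum, LinearMap.sum_apply]
      apply Finset.sum_congr rfl
      intro i _
      rw [← sub_eq_zero, ← map_sub]
      apply hz
      calc e i * (X - X * η i) = X * (e i * (1 - η i)) := by ring
        _ = 0 := by rw [hprod, mul_zero]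
    -- recentring
    have h3 : φ X 1 - φ 1 X = (∑ i ∈ s, φ ((X - (ε * i) • 1) * e i) (η i)) -
        ∑ i ∈ s, φ (e i) ((X - (ε * i) • 1) * η i) := by
      rw [h1, h2, ← Finset.sum_sub_distrib, ← Finset.sum_sub_distrib]
      apply Finset.sum_congr rfl
      intro i _
      have e1 : (X - (ε * i) • (1 : C(ℝ, ℝ))) * e i = X * e i - (ε * i) • e i := by
        rw [sub_mul, smul_mul_assoc, one_mul]
      have e2 : (X - (ε * i) • (1 : C(ℝ, ℝ))) * η i = X * η i - (ε * i) • η i := by
        rw [sub_mul, smul_mul_assoc, one_mul]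
      rw [e1, e2]
      simp only [map_sub, map_smul, LinearMap.sub_apply, LinearMap.smul_apply]
      abel
    -- pointwise estimates
    have habs : ∀ (i : ℤ) (t : ℝ), |t - ε * i| = ε * |t / ε - i| := by
      intro i t
      have : t - ε * i = ε * (t / ε - i) := by field_simp
      rw [this, abs_mul, abs_of_pos hε]
    have hpe : ∀ (i : ℤ) (t : ℝ), |((X - (ε * i) • (1 : C(ℝ, ℝ))) * e i) t| ≤ ε * tent (t / ε - i) := by
      intro i t
      simp only [ContinuousMap.mul_apply, ContinuousMap.sub_apply, ContinuousMap.smul_apply,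
        ContinuousMap.one_apply, smul_eq_mul, mul_one, hXt, het, abs_mul,
        abs_of_nonneg (tent_nonneg _)]
      rw [habs]
      by_cases h : |t / ε - i| ≤ 1
      · have := mul_le_mul_of_nonneg_left h hε.le
        exact mul_le_mul_of_nonneg_right (by linarith) (tent_nonneg _)
      · rw [tent_eq_zero (le_of_lt (not_le.mp h))]; simp
    have hpη : ∀ (i : ℤ) (t : ℝ), |((X - (ε * i) • (1 : C(ℝ, ℝ))) * η i) t| ≤
        2 * ε * bump (t / ε - i) := by
      intro i t
      simp only [ContinuousMap.mul_apply, ContinuousMap.sub_apply, ContinuousMap.smul_apply,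
        ContinuousMap.one_apply, smul_eq_mul, mul_one, hXt, hηt, abs_mul,
        abs_of_nonneg (bump_nonneg _)]
      rw [habs]
      by_cases h : |t / ε - i| ≤ 2
      · have := mul_le_mul_of_nonneg_left h hε.le
        exact mul_le_mul_of_nonneg_right (by linarith) (bump_nonneg _)
      · rw [bump_eq_zero (le_of_lt (not_le.mp h))]; simp
    have hgen : ∀ (γ : ℤ → C(ℝ, ℝ)) (c : ℤ → ℝ → ℝ) (C : ℝ), (∀ i t, |γ i t| ≤ c i t) →
        (∀ t, ∑ i ∈ s, c i t ≤ C) → ∀ σ : ℤ → ℝ, (∀ i, |σ i| ≤ 1) → ∀ t,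
        |(∑ i ∈ s, σ i • γ i) t| ≤ C := by
      intro γ c C hγ hC σ hσ t
      rw [ContinuousMap.coe_sum, Finset.sum_apply]
      refine (Finset.abs_sum_le_sum_abs _ _).trans ((Finset.sum_le_sum fun i _ => ?_).trans (hC t))
      rw [ContinuousMap.smul_apply, smul_eq_mul, abs_mul]
      calc |σ i| * |γ i t| ≤ 1 * |γ i t| := by gcongr; exact hσ i
        _ ≤ c i t := by rw [one_mul]; exact hγ i t
    have b1 : ‖∑ i ∈ s, φ ((X - (ε * i) • 1) * e i) (η i)‖ ≤ M * ε * 3 := by
      apply sign_bound'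
      intro σ hσ
      apply hb
      · intro t _
        refine hgen _ (fun i t => ε * tent (t / ε - i)) ε hpe (fun t => ?_) σ hσ t
        rw [← Finset.mul_sum]
        calc ε * _ ≤ ε * 1 := by gcongr; exact tent_sum_le s _
          _ = ε := mul_one _
      · intro t _
        refine hgen _ (fun i t => bump (t / ε - i)) 3 (fun i t => ?_) (fun t => bump_sum_le s _) σ hσ t
        rw [hηt, abs_of_nonneg (bump_nonneg _)]
    have b2 : ‖∑ i ∈ s, φ (e i) ((X - (ε * i) • 1) * η i)‖ ≤ M * 1 * (2 * ε * 3) := by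
      apply sign_bound'
      intro σ hσ
      apply hb
      · intro t _
        refine hgen _ (fun i t => tent (t / ε - i)) 1 (fun i t => ?_) (fun t => tent_sum_le s _) σ hσ t
        rw [het, abs_of_nonneg (tent_nonneg _)]
      · intro t _
        refine hgen _ (fun i t => 2 * ε * bump (t / ε - i)) (2 * ε * 3) hpη (fun t => ?_) σ hσ t
        rw [← Finset.mul_sum]
        gcongr
        exact bump_sum_le s _
    rw [h3]
    refine (norm_sub_le _ _).trans ((add_le_add b1 b2).trans (le_of_eq ?_))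
    ring
  rw [← sub_eq_zero, ← norm_le_zero_iff]
  have hlim : Tendsto (fun ε : ℝ => 9 * M * ε) (𝓝[>] 0) (𝓝 (9 * M * 0)) :=
    tendsto_nhdsWithin_of_tendsto_nhds ((continuous_const.mul continuous_id).tendsto 0)
  rw [mul_zero] at hlim
  exact ge_of_tendsto hlim (eventually_mem_nhdsWithin.mono fun ε hε => main ε hε)

end Pool.Agent.Lib.Pa5bb4a
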