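import Mathlib
import Pool.Agent.Lib.Pa5bb4a.Key
import Pool.Agent.Lib.Pa5bb4a.ZeroProd

/-!
The operators `D_a` on `B` and the Jordan derivation property.
-/

open Filter Topology

namespace Pool.Agent.Lib.Pa5bb4a

variable {A B : Type*} [NormedRing A] [NormedAlgebra ℂ A] [CompleteSpace A] [CStarAlgebra B]

/-- The operator `D_a` on `B`, given by `D_a (T y) = T (a y) - T a T y`. -/
theorem exists_D [Nontrivial B] (T : A →L[ℂ] B) (h1 : T 1 = 1) (hs : Function.Surjective T)
    (hinv : ∀ x, IsUnit x → IsUnit (T x)) (a : A) :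
    ∃ D : B →L[ℂ] B, (∀ y, D (T y) = T (a * y) - T a * T y) ∧ D 1 = 0 ∧
      ∀ (h k k' : B) (M : ℝ), ‖h - algebraMap ℂ B M‖ ≤ M → k * h = 0 → h * k' = 0 →
        k * D h * k' = 0 := by
  obtain ⟨C, hC, hkey⟩ := key_estimate T h1 hs hinv a
  -- well-definedness
  have hker : ∀ y, T y = 0 → T (a * y) = 0 := by
    intro y hy
    have h2 : ∀ t : ℝ, |t| * ‖T (a * y)‖ ≤ C := by
      intro t
      have e1 : T ((t : ℂ) • y + 1) = 1 := by rw [map_add, map_smul, hy, smul_zero, zero_add, h1]
      have h3 := (hkey ((t : ℂ) • y + 1) 1 1 one_pos (by rw [e1]; simp)).2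
      rw [e1, Ring.inverse_one, one_mul, mul_one, mul_one, mul_add, mul_one, map_add,
        add_sub_cancel_right, mul_smul_comm, map_smul, norm_smul, Complex.norm_real,
        Real.norm_eq_abs, div_one] at h3
      exact h3
    by_contra hne
    have hpos : 0 < ‖T (a * y)‖ := norm_pos_iff.mpr hne
    have h3 := h2 ((C + 1) / ‖T (a * y)‖)
    rw [abs_of_nonneg (by positivity), div_mul_cancel₀ _ hpos.ne'] at h3
    linarith
  have hker' : ∀ y y', T y = T y' → T (a * y) = T (a * y') := by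
    intro y y' h
    have := hker (y - y') (by rw [map_sub, h, sub_self])
    rwa [mul_sub, map_sub, sub_eq_zero] at this
  set s := Function.surjInv hs with hsdef
  have hTs : ∀ b, T (s b) = b := Function.surjInv_eq hs
  obtain ⟨C₀, hC₀, hpre⟩ := T.exists_preimage_norm_le hs
  let D₀ : B →ₗ[ℂ] B :=
    { toFun := fun b => T (a * s b) - T a * b
      map_add' := by
        intro b b'
        have e : T (a * s (b + b')) = T (a * (s b + s b')) :=
          hker' _ _ (by rw [map_add, hTs, hTs, hTs])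
        rw [e, mul_add, mul_add, map_add]
        abel
      map_smul' := by
        intro c b
        have e : T (a * s (c • b)) = T (a * (c • s b)) :=
          hker' _ _ (by rw [map_smul, hTs, hTs])
        rw [e, mul_smul_comm, mul_smul_comm, map_smul, RingHom.id_apply, smul_sub] }
  have hD₀ : ∀ y, D₀ (T y) = T (a * y) - T a * T y := by
    intro y
    change T (a * s (T y)) - T a * T y = _
    rw [hker' _ _ (hTs (T y))]
  have hbound : ∀ b, ‖D₀ b‖ ≤ (‖T‖ * ‖a‖ * C₀ + ‖T a‖) * ‖b‖ := by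
    intro b
    obtain ⟨y, rfl, hy⟩ := hpre b
    rw [hD₀]
    calc ‖T (a * y) - T a * T y‖ ≤ ‖T (a * y)‖ + ‖T a * T y‖ := norm_sub_le _ _
      _ ≤ ‖T‖ * (‖a‖ * (C₀ * ‖T y‖)) + ‖T a‖ * ‖T y‖ := by
        gcongr
        · refine (T.le_opNorm _).trans ?_
          gcongr
          refine (norm_mul_le _ _).trans ?_
          gcongr
        · exact norm_mul_le _ _
      _ = _ := by ring
  let D : B →L[ℂ] B := D₀.mkContinuous _ hbound
  have hD : ∀ b, D b = D₀ b := fun _ => rfl
  have hD1 : D 1 = 0 := by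
    have := hD₀ 1
    rw [h1, mul_one, mul_one, sub_self] at this
    rw [hD]; exact this
  refine ⟨D, fun y => by rw [hD, hD₀], hD1, ?_⟩
  intro h k k' M hM hk hk'
  have main : ∀ δ > 0, ‖k * D h * k'‖ ≤ δ * (‖k‖ * C * ‖k'‖) := by
    intro δ hδ
    obtain ⟨y, hy⟩ := hs (h + algebraMap ℂ B δ)
    have h2 : ‖T y - algebraMap ℂ B ((M + δ : ℝ) : ℂ)‖ ≤ (M + δ) - δ := by
      rw [hy, Complex.ofReal_add, map_add, add_sub_add_right_eq_sub, add_sub_cancel_right]
      exact hM
    obtain ⟨hu, hn⟩ := hkey y δ (M + δ) hδ h2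
    have e1 : T (a * y) - T a * T y = D h := by
      rw [← hD₀, ← hD, hy, map_add, Algebra.algebraMap_eq_smul_one, map_smul, hD1, smul_zero,
        add_zero]
    rw [e1] at hn
    set g := Ring.inverse (T y)
    have e2 : k = (δ : ℂ) • (k * g) := by
      have : k * T y = (δ : ℂ) • k := by
        rw [hy, mul_add, hk, zero_add, Algebra.algebraMap_eq_smul_one, mul_smul_comm, mul_one]
      calc k = k * (T y * g) := by rw [Ring.mul_inverse_cancel _ hu, mul_one]
        _ = (δ : ℂ) • (k * g) := by rw [← mul_assoc, this, smul_mul_assoc]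
    have e3 : k' = (δ : ℂ) • (g * k') := by
      have : T y * k' = (δ : ℂ) • k' := by
        rw [hy, add_mul, hk', zero_add, Algebra.algebraMap_eq_smul_one, smul_mul_assoc, one_mul]
      calc k' = (g * T y) * k' := by rw [Ring.inverse_mul_cancel _ hu, one_mul]
        _ = (δ : ℂ) • (g * k') := by rw [mul_assoc, this, mul_smul_comm]
    have e4 : k * D h * k' = ((δ : ℂ) * δ) • (k * (g * D h * g) * k') := by
      conv_lhs => rw [e2, e3]
      simp only [smul_mul_assoc, mul_smul_comm, smul_smul, mul_assoc]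
    rw [e4, norm_smul, norm_mul, Complex.norm_real, Real.norm_of_nonneg hδ.le]
    calc δ * δ * ‖k * (g * D h * g) * k'‖ ≤ δ * δ * (‖k‖ * (C / δ) * ‖k'‖) := by
          gcongr
          refine (norm_mul_le _ _).trans ?_
          gcongr
          refine (norm_mul_le _ _).trans ?_
          gcongr
      _ = δ * (‖k‖ * C * ‖k'‖) := by field_simp
  rw [← norm_le_zero_iff]
  have hlim : Tendsto (fun δ : ℝ => δ * (‖k‖ * C * ‖k'‖)) (𝓝[>] 0) (𝓝 (0 * (‖k‖ * C * ‖k'‖))) :=
    tendsto_nhdsWithin_of_tendsto_nhds ((continuous_id.mul continuous_const).tendsto 0)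
  rw [zero_mul] at hlim
  exact ge_of_tendsto hlim (eventually_mem_nhdsWithin.mono fun ε hε => main ε hε)

/-- From orthogonality to the Jordan derivation property on self-adjoint elements. -/
theorem jordan_of_orth [Nontrivial B] (D : B →L[ℂ] B) (hD1 : D 1 = 0)
    (horth : ∀ (h k k' : B) (M : ℝ), ‖h - algebraMap ℂ B M‖ ≤ M → k * h = 0 → h * k' = 0 →
        k * D h * k' = 0) (x : B) (hx : IsSelfAdjoint x) :
    D (x * x) = D x * x + x * D x := by
  -- functional calculus
  let ψ : C(ℝ, ℝ) →ₐ[ℝ] B :=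
    { toFun := fun p => cfc p x
      map_one' := cfc_const_one ℝ x
      map_mul' := fun p q => cfc_mul _ _ x
      map_zero' := cfc_const_zero ℝ x
      map_add' := fun p q => cfc_add x _ _
      commutes' := fun r => cfc_const r x }
  have hψ : ∀ p : C(ℝ, ℝ), ψ p = cfc p x := fun _ => rfl
  have hψX : ψ (ContinuousMap.id ℝ) = x := by rw [hψ]; exact cfc_id ℝ x
  have hψn : ∀ (p : C(ℝ, ℝ)) (P : ℝ), (∀ t, |t| ≤ ‖x‖ → |p t| ≤ P) → ‖ψ p‖ ≤ P := by
    intro p P hP
    have hP0 : 0 ≤ P := (abs_nonneg _).trans (hP 0 (by simp))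
    rw [hψ]
    refine norm_cfc_le hP0 (fun t ht => ?_)
    exact hP t (by simpa using spectrum.norm_le_norm_of_mem ht)
  -- orthogonality for all real functions
  have horth' : ∀ f g g' : C(ℝ, ℝ), g * f = 0 → f * g' = 0 → ψ g * D (ψ f) * ψ g' = 0 := by
    -- nonnegative functions
    have hpos : ∀ f g g' : C(ℝ, ℝ), (∀ t, 0 ≤ f t) → g * f = 0 → f * g' = 0 →
        ψ g * D (ψ f) * ψ g' = 0 := by
      intro f g g' hf hgf hfg
      obtain ⟨M, hM⟩ := (isCompact_Icc (a := -‖x‖) (b := ‖x‖)).bddAbove_image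
        (f.continuous.continuousOn)
      refine horth (ψ f) (ψ g) (ψ g') M ?_ (by rw [← map_mul, hgf, map_zero])
        (by rw [← map_mul, hfg, map_zero])
      have e1 : ψ f - algebraMap ℂ B M = ψ (f - algebraMap ℝ C(ℝ, ℝ) M) := by
        rw [map_sub, AlgHomClass.commutes]
        rfl
      rw [e1]
      apply hψn
      intro t ht
      have h2 : f t ≤ M := hM ⟨t, abs_le.mp ht, rfl⟩
      have h3 : (f - algebraMap ℝ C(ℝ, ℝ) M) t = f t - M := by
        rw [Algebra.algebraMap_eq_smul_one]; simp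
      rw [h3, abs_of_nonpos (by linarith)]
      linarith [hf t]
    intro f g g' hgf hfg
    have e1 : f = (f ⊔ 0) - ((-f) ⊔ 0) := by
      ext t
      simp only [ContinuousMap.sub_apply, ContinuousMap.sup_apply, ContinuousMap.zero_apply,
        ContinuousMap.neg_apply]
      rcases le_total 0 (f t) with h | h
      · rw [max_eq_left h, max_eq_right (by linarith)]; ring
      · rw [max_eq_right h, max_eq_left (by linarith)]; ring
    have hv : ∀ (p q : C(ℝ, ℝ)), p * q = 0 → ∀ t, p t = 0 ∨ q t = 0 := by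
      intro p q h t
      have := congrArg (fun r : C(ℝ, ℝ) => r t) h
      simpa using this
    have h1 := hpos (f ⊔ 0) g g' (fun t => by simp) (by
      ext t
      rcases hv g f hgf t with h | h <;> simp [h]) (by
      ext t
      rcases hv f g' hfg t with h | h <;> simp [h])
    have h2 := hpos ((-f) ⊔ 0) g g' (fun t => by simp) (by
      ext t
      rcases hv g f hgf t with h | h <;> simp [h]) (by
      ext t
      rcases hv f g' hfg t with h | h <;> simp [h])
    calc ψ g * D (ψ f) * ψ g' = ψ g * D (ψ ((f ⊔ 0) - ((-f) ⊔ 0))) * ψ g' := by rw [← e1]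
      _ = 0 := by rw [map_sub, map_sub, mul_sub, sub_mul, h1, h2, sub_zero]
  -- first application
  have step1 : ∀ f g' : C(ℝ, ℝ), f * g' = 0 → (x * D (ψ f) - D (x * ψ f)) * ψ g' = 0 := by
    intro f g' hfg
    let φ : C(ℝ, ℝ) →ₗ[ℝ] C(ℝ, ℝ) →ₗ[ℝ] B := LinearMap.mk₂ ℝ
      (fun p q => ψ p * D (ψ (q * f)) * ψ g')
      (by intro p p' q; rw [map_add, add_mul, add_mul])
      (by intro c p q; rw [map_smul, smul_mul_assoc, smul_mul_assoc])
      (by intro p q q'; rw [add_mul, map_add, map_add, mul_add, add_mul])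
      (by
        intro c p q
        rw [smul_mul_assoc, map_smul]
        have : D (c • ψ (q * f)) = c • D (ψ (q * f)) := by
          simp
        rw [this, mul_smul_comm, smul_mul_assoc])
    have key := zero_product φ (R := ‖x‖) (M := ‖D‖ * ‖ψ f‖ * ‖ψ g'‖) (by
      intro p q P Q hP hQ
      have hp := hψn p P hP
      have hq := hψn q Q hQ
      have hP0 : 0 ≤ P := (norm_nonneg _).trans hp
      have hQ0 : 0 ≤ Q := (norm_nonneg _).trans hq
      change ‖ψ p * D (ψ (q * f)) * ψ g'‖ ≤ _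
      calc ‖ψ p * D (ψ (q * f)) * ψ g'‖ ≤ ‖ψ p‖ * ‖D (ψ (q * f))‖ * ‖ψ g'‖ := norm_mul₃_le
        _ ≤ P * (‖D‖ * (Q * ‖ψ f‖)) * ‖ψ g'‖ := by
          gcongr
          refine (D.le_opNorm _).trans ?_
          gcongr
          rw [map_mul]
          refine (norm_mul_le _ _).trans ?_
          gcongr
        _ = _ := by ring) (by
      intro p q hpq
      change ψ p * D (ψ (q * f)) * ψ g' = 0
      apply horth'
      · rw [← mul_assoc, hpq, zero_mul]
      · rw [mul_assoc, hfg, mul_zero])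
    change ψ (ContinuousMap.id ℝ) * D (ψ (1 * f)) * ψ g' =
      ψ 1 * D (ψ (ContinuousMap.id ℝ * f)) * ψ g' at key
    rw [one_mul, map_one, one_mul, map_mul, hψX] at key
    rw [sub_mul, key, sub_self]
  -- second application
  let φ : C(ℝ, ℝ) →ₗ[ℝ] C(ℝ, ℝ) →ₗ[ℝ] B := LinearMap.mk₂ ℝ
    (fun p q => (x * D (ψ p) - D (x * ψ p)) * ψ q)
    (by intro p p' q; simp only [map_add, mul_add, sub_mul, add_mul]; abel)
    (by
      intro c p q
      have h1 : ∀ b : B, D (c • b) = c • D b := by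
        intro b
        simp
      rw [map_smul, mul_smul_comm, h1, h1, mul_smul_comm, ← smul_sub, smul_mul_assoc])
    (by intro p q q'; rw [map_add, mul_add])
    (by intro c p q; rw [map_smul, mul_smul_comm])
  have key := zero_product φ (R := ‖x‖) (M := ‖x‖ * ‖D‖ + ‖D‖ * ‖x‖) (by
    intro p q P Q hP hQ
    have hp := hψn p P hP
    have hq := hψn q Q hQ
    have hP0 : 0 ≤ P := (norm_nonneg _).trans hp
    have hQ0 : 0 ≤ Q := (norm_nonneg _).trans hq
    change ‖(x * D (ψ p) - D (x * ψ p)) * ψ q‖ ≤ _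
    calc ‖(x * D (ψ p) - D (x * ψ p)) * ψ q‖ ≤ ‖x * D (ψ p) - D (x * ψ p)‖ * ‖ψ q‖ :=
          norm_mul_le _ _
      _ ≤ (‖x * D (ψ p)‖ + ‖D (x * ψ p)‖) * ‖ψ q‖ := by gcongr; exact norm_sub_le _ _
      _ ≤ (‖x‖ * (‖D‖ * P) + ‖D‖ * (‖x‖ * P)) * Q := by
        gcongr
        · refine (norm_mul_le _ _).trans ?_
          gcongr
          refine (D.le_opNorm _).trans ?_
          gcongr
        · refine (D.le_opNorm _).trans ?_
          gcongr
          refine (norm_mul_le _ _).trans ?_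
          gcongr
      _ = _ := by ring) (fun p q hpq => step1 p q hpq)
  change (x * D (ψ (ContinuousMap.id ℝ)) - D (x * ψ (ContinuousMap.id ℝ))) * ψ 1 =
    (x * D (ψ 1) - D (x * ψ 1)) * ψ (ContinuousMap.id ℝ) at key
  rw [hψX, map_one, mul_one, hD1, mul_zero, zero_sub, mul_one, neg_mul] at key
  have : D (x * x) = x * D x + D x * x := by
    rw [sub_eq_iff_eq_add] at key
    rw [key]; abel
  rw [this, add_comm]

end Pool.Agent.Lib.Pa5bb4a
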