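import Mathlib

/-!
Jordan derivations of 2-torsion free semiprime rings are derivations (Herstein, Cusack, Bresar).
-/

namespace Pool.Agent.Lib.Pa5bb4a

variable {R : Type*} [Ring R]

theorem jd_sum {D : R →+ R} (hJ : ∀ x, D (x * x) = D x * x + x * D x) (x y : R) :
    D (x * y) + D (y * x) = D x * y + x * D y + D y * x + y * D x := by
  have h := hJ (x + y)
  have e : (x + y) * (x + y) = x * x + y * y + (x * y + y * x) := by noncomm_ring
  rw [e, map_add, map_add, map_add, map_add, hJ x, hJ y] at h
  have h2 : D (x * y) + D (y * x) = (D x + D y) * (x + y) + (x + y) * (D x + D y) -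
      (D x * x + x * D x + (D y * y + y * D y)) := by
    rw [← h]; abel
  rw [h2]
  noncomm_ring

theorem jd_triple {D : R →+ R} (hJ : ∀ x, D (x * x) = D x * x + x * D x)
    (h2 : ∀ x : R, x + x = 0 → x = 0) (x y : R) :
    D (x * y * x) = D x * y * x + x * D y * x + x * y * D x := by
  have e1 := jd_sum hJ x (x * y + y * x)
  have e2 := jd_sum hJ (x * x) y
  have e3 := jd_sum hJ x y
  have e4 : x * (x * y + y * x) = x * x * y + x * y * x := by noncomm_ring
  have e5 : (x * y + y * x) * x = x * y * x + y * (x * x) := by noncomm_ring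
  rw [e4, e5, map_add, map_add, map_add, e3] at e1
  rw [hJ x] at e2
  rw [← sub_eq_zero]
  apply h2
  have e6 : D (x * y * x) + D (x * y * x) =
      (D x * (x * y + y * x) + x * (D x * y + x * D y + D y * x + y * D x) +
        (D x * y + x * D y + D y * x + y * D x) * x + (x * y + y * x) * D x) -
      ((D x * x + x * D x) * y + x * x * D y + D y * (x * x) + y * (D x * x + x * D x)) := by
    rw [← e1, ← e2]; abel
  have e7 : D (x * y * x) - (D x * y * x + x * D y * x + x * y * D x) +
      (D (x * y * x) - (D x * y * x + x * D y * x + x * y * D x)) =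
      (D (x * y * x) + D (x * y * x)) -
      ((D x * y * x + x * D y * x + x * y * D x) + (D x * y * x + x * D y * x + x * y * D x)) := by
    abel
  rw [e7, e6]
  noncomm_ring

theorem jd_triple' {D : R →+ R} (hJ : ∀ x, D (x * x) = D x * x + x * D x)
    (h2 : ∀ x : R, x + x = 0 → x = 0) (x y z : R) :
    D (x * y * z) + D (z * y * x) = D x * y * z + x * D y * z + x * y * D z +
      D z * y * x + z * D y * x + z * y * D x := by
  have h := jd_triple hJ h2 (x + z) y
  have hx := jd_triple hJ h2 x y
  have hz := jd_triple hJ h2 z y
  have e : (x + z) * y * (x + z) = x * y * x + z * y * z + (x * y * z + z * y * x) := by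
    noncomm_ring
  rw [e, map_add, map_add, map_add, map_add, hx, hz] at h
  have h3 : D (x * y * z) + D (z * y * x) = (D x + D z) * y * (x + z) + (x + z) * D y * (x + z) +
      (x + z) * y * (D x + D z) - (D x * y * x + x * D y * x + x * y * D x +
        (D z * y * z + z * D y * z + z * y * D z)) := by
    rw [← h]; abel
  rw [h3]
  noncomm_ring

/-- The defect. -/
def dfc (D : R →+ R) (a b : R) : R := D (a * b) - D a * b - a * D b

theorem dfc_anti {D : R →+ R} (hJ : ∀ x, D (x * x) = D x * x + x * D x) (a b : R) :
    dfc D b a = -dfc D a b := by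
  have h := jd_sum hJ a b
  unfold dfc
  rw [eq_neg_iff_add_eq_zero]
  have : D (b * a) - D b * a - b * D a + (D (a * b) - D a * b - a * D b) =
      (D (a * b) + D (b * a)) - (D a * b + a * D b + D b * a + b * D a) := by abel
  rw [this, h, sub_self]

theorem dfc_key {D : R →+ R} (hJ : ∀ x, D (x * x) = D x * x + x * D x)
    (h2 : ∀ x : R, x + x = 0 → x = 0) (a b x : R) :
    dfc D a b * x * (a * b - b * a) + (a * b - b * a) * x * dfc D a b = 0 := by
  have hp : D (a * b) = dfc D a b + D a * b + a * D b := by unfold dfc; abel
  have hq : D (b * a) = -dfc D a b + D b * a + b * D a := by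
    rw [← dfc_anti hJ]; unfold dfc; abel
  have e1 := jd_triple hJ h2 a (b * x * b)
  have e1' := jd_triple hJ h2 b x
  have e2 := jd_triple hJ h2 b (a * x * a)
  have e2' := jd_triple hJ h2 a x
  have e3 := jd_triple' hJ h2 (a * b) x (b * a)
  rw [e1'] at e1
  rw [e2'] at e2
  have f1 : a * b * x * (b * a) = a * (b * x * b) * a := by noncomm_ring
  have f2 : b * a * x * (a * b) = b * (a * x * a) * b := by noncomm_ring
  rw [f1, f2, e1, e2, hp, hq] at e3
  generalize dfc D a b = δ at *
  generalize D a = da at *
  generalize D b = db at *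
  generalize D x = dx at *
  rw [← sub_eq_zero] at e3
  rw [← e3]
  noncomm_ring

theorem semiprime_aux (h2 : ∀ x : R, x + x = 0 → x = 0)
    (hsp : ∀ x : R, (∀ y, x * y * x = 0) → x = 0) {p q : R}
    (h : ∀ x, p * x * q + q * x * p = 0) (x : R) : p * x * q = 0 := by
  apply hsp
  intro y
  apply h2
  have h' : ∀ x, q * x * p = -(p * x * q) := fun x => by
    rw [eq_neg_iff_add_eq_zero, add_comm]; exact h x
  have e1 : p * x * q * y * (p * x * q) = p * x * (q * y * p) * x * q := by noncomm_ring
  have e2 : p * x * (-(p * y * q)) * x * q = -(p * (x * p * y) * q * x * q) := by noncomm_ring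
  have e3 : p * (x * p * y) * q = -(q * (x * p * y) * p) := by rw [h', neg_neg]
  have e4 : -(-(q * (x * p * y) * p) * x * q) = (q * x * p) * y * (p * x * q) := by noncomm_ring
  have e5 : p * x * q * y * (p * x * q) = -(p * x * q * y * (p * x * q)) := by
    conv_lhs => rw [e1, h' y, e2, e3, e4, h' x]
    noncomm_ring
  nth_rewrite 1 [e5]
  exact neg_add_cancel _

theorem dfc_add_left (D : R →+ R) (a a' b : R) : dfc D (a + a') b = dfc D a b + dfc D a' b := by
  unfold dfc; rw [add_mul, map_add, map_add]; noncomm_ring

theorem dfc_add_right (D : R →+ R) (a b b' : R) : dfc D a (b + b') = dfc D a b + dfc D a b' := by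
  unfold dfc; rw [mul_add, map_add, map_add]; noncomm_ring

/-- Jordan derivations of 2-torsion free semiprime rings are derivations. -/
theorem der_of_jordan (h2 : ∀ x : R, x + x = 0 → x = 0)
    (hsp : ∀ x : R, (∀ y, x * y * x = 0) → x = 0) {D : R →+ R}
    (hJ : ∀ x, D (x * x) = D x * x + x * D x) (a b : R) :
    D (a * b) = D a * b + a * D b := by
  -- (i)
  have i1 : ∀ a b x, dfc D a b * x * (a * b - b * a) = 0 := fun a b x =>
    semiprime_aux h2 hsp (fun x => dfc_key hJ h2 a b x) x
  have i2 : ∀ a b x, (a * b - b * a) * x * dfc D a b = 0 := fun a b x =>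
    semiprime_aux h2 hsp (fun x => by rw [add_comm]; exact dfc_key hJ h2 a b x) x
  -- (ii)
  have j1 : ∀ a b c x, dfc D a b * x * (c * b - b * c) = 0 := by
    intro a b c x
    have hlin : ∀ x, dfc D a b * x * (c * b - b * c) = -(dfc D c b * x * (a * b - b * a)) := by
      intro x
      rw [eq_neg_iff_add_eq_zero]
      have h := i1 (a + c) b x
      rw [dfc_add_left] at h
      have e : (dfc D a b + dfc D c b) * x * ((a + c) * b - b * (a + c)) =
          (dfc D a b * x * (c * b - b * c) + dfc D c b * x * (a * b - b * a)) +
          dfc D a b * x * (a * b - b * a) + dfc D c b * x * (c * b - b * c) := by noncomm_ring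
      rw [e, i1, i1, add_zero, add_zero] at h
      exact h
    apply hsp
    intro y
    have e : dfc D a b * x * (c * b - b * c) * y * (dfc D a b * x * (c * b - b * c)) =
        -(dfc D a b * x * ((c * b - b * c) * y * dfc D c b) * x * (a * b - b * a)) := by
      conv_lhs => rw [hlin x]
      have := hlin x
      calc -(dfc D c b * x * (a * b - b * a)) * y * -(dfc D c b * x * (a * b - b * a))
          = (dfc D c b * x * (a * b - b * a)) * y * (dfc D c b * x * (a * b - b * a)) := by
            noncomm_ring
        _ = (-(dfc D a b * x * (c * b - b * c))) * y * (dfc D c b * x * (a * b - b * a)) := by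
            rw [this, neg_neg]
        _ = _ := by noncomm_ring
    rw [e, i2]
    noncomm_ring
  have j2 : ∀ a b c x, (c * b - b * c) * x * dfc D a b = 0 := by
    intro a b c x
    have hlin : ∀ x, (c * b - b * c) * x * dfc D a b = -((a * b - b * a) * x * dfc D c b) := by
      intro x
      rw [eq_neg_iff_add_eq_zero]
      have h := i2 (a + c) b x
      rw [dfc_add_left] at h
      have e : ((a + c) * b - b * (a + c)) * x * (dfc D a b + dfc D c b) =
          ((c * b - b * c) * x * dfc D a b + (a * b - b * a) * x * dfc D c b) +
          (a * b - b * a) * x * dfc D a b + (c * b - b * c) * x * dfc D c b := by noncomm_ring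
      rw [e, i2, i2, add_zero, add_zero] at h
      exact h
    apply hsp
    intro y
    have e : (c * b - b * c) * x * dfc D a b * y * ((c * b - b * c) * x * dfc D a b) =
        -((c * b - b * c) * x * (dfc D a b * y * (a * b - b * a)) * x * dfc D c b) := by
      calc (c * b - b * c) * x * dfc D a b * y * ((c * b - b * c) * x * dfc D a b)
          = (c * b - b * c) * x * dfc D a b * y * (-((a * b - b * a) * x * dfc D c b)) := by
            rw [hlin x]
        _ = _ := by noncomm_ring
    rw [e, i1]
    noncomm_ring
  -- (iii)
  have k1 : ∀ a b c d x, dfc D a b * x * (c * d - d * c) = 0 := by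
    intro a b c d x
    have hlin : ∀ x, dfc D a b * x * (c * d - d * c) = -(dfc D a d * x * (c * b - b * c)) := by
      intro x
      rw [eq_neg_iff_add_eq_zero]
      have h := j1 a (b + d) c x
      rw [dfc_add_right] at h
      have e : (dfc D a b + dfc D a d) * x * (c * (b + d) - (b + d) * c) =
          (dfc D a b * x * (c * d - d * c) + dfc D a d * x * (c * b - b * c)) +
          dfc D a b * x * (c * b - b * c) + dfc D a d * x * (c * d - d * c) := by noncomm_ring
      rw [e, j1, j1, add_zero, add_zero] at h
      exact h
    apply hsp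
    intro y
    have e : dfc D a b * x * (c * d - d * c) * y * (dfc D a b * x * (c * d - d * c)) =
        -(dfc D a b * x * ((c * d - d * c) * y * dfc D a d) * x * (c * b - b * c)) := by
      calc dfc D a b * x * (c * d - d * c) * y * (dfc D a b * x * (c * d - d * c))
          = dfc D a b * x * (c * d - d * c) * y * (-(dfc D a d * x * (c * b - b * c))) := by
            rw [hlin x]
        _ = _ := by noncomm_ring
    rw [e, j2]
    noncomm_ring
  -- (iv) the defect is central
  set z := dfc D a b with hz
  have hk : ∀ x c d, z * x * (c * d - d * c) = 0 := fun x c d => k1 a b c d x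
  have hcent : ∀ c, z * c = c * z := by
    intro c
    rw [← sub_eq_zero]
    apply hsp
    intro y
    have e : (z * c - c * z) * y * (z * c - c * z) =
        z * (c * y) * (z * c - c * z) - c * (z * y * (z * c - c * z)) := by noncomm_ring
    rw [e, hk, hk, mul_zero, sub_zero]
  -- (v) `z` is nilpotent
  have hz1 : ∀ c d, z * (c * d - d * c) = 0 := by
    intro c d
    have := hk 1 c d
    rwa [mul_one] at this
  have hDc : D (a * b - b * a) = z + z + (D a * b + a * D b - D b * a - b * D a) := by
    have e1 : D (a * b) = z + D a * b + a * D b := by rw [hz]; unfold dfc; abel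
    have e2 : D (b * a) = -z + D b * a + b * D a := by
      rw [hz, ← dfc_anti hJ]; unfold dfc; abel
    rw [map_sub, e1, e2]; abel
  have hzD : z * D (a * b - b * a) = z * z + z * z := by
    rw [hDc]
    have e : z * (z + z + (D a * b + a * D b - D b * a - b * D a)) =
        z * z + z * z + z * (D a * b - b * D a) + z * (a * D b - D b * a) := by noncomm_ring
    rw [e, hz1, hz1, add_zero, add_zero]
  have hsum := jd_sum hJ z (a * b - b * a)
  have hcz : (a * b - b * a) * z = 0 := by rw [← hcent, hz1]
  rw [hz1, hcz, map_zero, add_zero] at hsum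
  have hDz : D (a * b - b * a) * z = z * z + z * z := by rw [← hcent, hzD]
  rw [hzD, hDz] at hsum
  have h4 : z * ((z * z + z * z) + (z * z + z * z)) = 0 := by
    have e : z * ((z * z + z * z) + (z * z + z * z)) =
        z * (D z * (a * b - b * a) + (z * z + z * z) + (z * z + z * z) + (a * b - b * a) * D z) -
        z * D z * (a * b - b * a) - z * (a * b - b * a) * D z := by noncomm_ring
    rw [e, ← hsum, hk, hz1]
    simp
  have h5 : z * z * z = 0 := by
    apply h2
    apply h2
    calc z * z * z + z * z * z + (z * z * z + z * z * z)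
        = z * ((z * z + z * z) + (z * z + z * z)) := by noncomm_ring
      _ = 0 := h4
  have h6 : z * z = 0 := by
    apply hsp
    intro y
    have e : z * z * y * (z * z) = z * (z * y) * (z * z) := by noncomm_ring
    rw [e, hcent (z * y)]
    have e' : z * y * z * (z * z) = z * y * (z * z * z) := by noncomm_ring
    rw [e', h5, mul_zero]
  have h7 : z = 0 := by
    apply hsp
    intro y
    rw [hcent y, mul_assoc, h6, mul_zero]
  have h8 : D (a * b) = z + D a * b + a * D b := by rw [hz]; unfold dfc; abel
  rw [h8, h7, zero_add]

end Pool.Agent.Lib.Pa5bb4a
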