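import Mathlib
import Pool.Agent.Lib.Pa5bb4a.Der
import Pool.Agent.Lib.Pa5bb4a.JordanDer

/-!
Unital surjective invertibility preserving linear maps onto C*-algebras are Jordan epimorphisms.
-/

open Filter Topology ComplexStarModule

namespace Pool.Agent.Lib.Pa5bb4a

variable {A B : Type*} [NormedRing A] [NormedAlgebra ℂ A] [CompleteSpace A] [CStarAlgebra B]

theorem two_torsion (x : B) (h : x + x = 0) : x = 0 := by
  have : (2 : ℂ) • x = 0 := by rw [two_smul]; exact h
  rcases smul_eq_zero.mp this with h | h
  · norm_num at h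
  · exact h

theorem semiprime_cstar (x : B) (h : ∀ y, x * y * x = 0) : x = 0 := by
  have h1 := h (star x)
  have h2 : (star x * x) * star (star x * x) = 0 := by
    rw [star_mul, star_star, mul_assoc, ← mul_assoc x, h1, mul_zero]
  rw [CStarRing.mul_star_self_eq_zero_iff] at h2
  exact CStarRing.star_mul_self_eq_zero_iff x |>.mp h2

/-- The Jordan derivation property extends from self-adjoint elements to all elements. -/
theorem jordan_of_selfAdjoint (D : B →L[ℂ] B)
    (h : ∀ x, IsSelfAdjoint x → D (x * x) = D x * x + x * D x) (x : B) :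
    D (x * x) = D x * x + x * D x := by
  have hpol : ∀ p q : B, IsSelfAdjoint p → IsSelfAdjoint q →
      D (p * q + q * p) = D p * q + p * D q + D q * p + q * D p := by
    intro p q hp hq
    have h1 := h (p + q) (hp.add hq)
    have e : (p + q) * (p + q) = p * p + q * q + (p * q + q * p) := by noncomm_ring
    rw [e, map_add D (p * p + q * q), map_add D (p * p), h p hp, h q hq, map_add D p] at h1
    have h3 : D (p * q + q * p) = (D p + D q) * (p + q) + (p + q) * (D p + D q) -
        (D p * p + p * D p + (D q * q + q * D q)) := by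
      rw [← h1]; abel
    rw [h3]
    noncomm_ring
  obtain ⟨p, q, hp, hq, rfl⟩ : ∃ p q : B, IsSelfAdjoint p ∧ IsSelfAdjoint q ∧
      x = p + Complex.I • q :=
    ⟨ℜ x, ℑ x, (ℜ x).2, (ℑ x).2, (realPart_add_I_smul_imaginaryPart x).symm⟩
  have e1 : (p + Complex.I • q) * (p + Complex.I • q) =
      p * p - q * q + Complex.I • (p * q + q * p) := by
    simp only [add_mul, mul_add, smul_mul_assoc, mul_smul_comm, smul_smul, Complex.I_mul_I,
      neg_smul, one_smul, smul_add]
    abel
  rw [e1, map_add, map_sub, map_smul, hpol p q hp hq, h p hp, h q hq, map_add, map_smul]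
  simp only [add_mul, mul_add, smul_mul_assoc, mul_smul_comm, smul_smul, Complex.I_mul_I,
    neg_smul, one_smul, smul_add]
  abel

/-- **Main theorem**: the square is preserved. -/
theorem map_sq (T : A →ₗ[ℂ] B) (h1 : T 1 = 1) (hs : Function.Surjective T)
    (hinv : ∀ x, IsUnit x → IsUnit (T x)) (a : A) : T (a * a) = T a * T a := by
  cases subsingleton_or_nontrivial B with
  | inl hB => exact Subsingleton.elim _ _
  | inr hB =>
    let T' : A →L[ℂ] B := ⟨T, continuous_of_inv h1 hs hinv⟩
    have hT' : ∀ x, T' x = T x := fun _ => rfl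
    have hD : ∀ a : A, ∃ D : B →L[ℂ] B, (∀ y, D (T y) = T (a * y) - T a * T y) ∧
        ∀ x y, D (x * y) = D x * y + x * D y := by
      intro a
      obtain ⟨D, hD, hD1, horth⟩ := exists_D T' h1 hs hinv a
      refine ⟨D, hD, ?_⟩
      have hJ := jordan_of_selfAdjoint D (fun x hx => jordan_of_orth D hD1 horth x hx)
      intro x y
      exact der_of_jordan (D := (D : B →+ B)) two_torsion semiprime_cstar hJ x y
    obtain ⟨D, hDT, hDder⟩ := hD a
    obtain ⟨D₂, hD₂T, hD₂der⟩ := hD (a * a)
    set u := T a with hu
    have hTaa : T (a * a) = u * u + D u := by rw [hu, hDT]; abel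
    -- formula for `D₂`
    have hD₂ : ∀ v, D₂ v = u * D v + u * D v + D (D v) := by
      intro v
      obtain ⟨y, rfl⟩ := hs v
      have e1 : T (a * (a * y)) = u * T (a * y) + D (T (a * y)) := by rw [hDT]; abel
      have e2 : T (a * y) = u * T y + D (T y) := by rw [hDT]; abel
      have e3 := hD₂T y
      rw [mul_assoc, e1, e2, map_add, hDder, hTaa] at e3
      rw [e3]
      noncomm_ring
    -- consequence of the Leibniz rule for `D₂`
    have hrel : ∀ v w, (u * v - v * u + D v) * D w = 0 := by
      intro v w
      have e := hD₂der v w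
      rw [hD₂, hD₂, hD₂, hDder v w, map_add, hDder, hDder] at e
      apply two_torsion
      rw [← sub_eq_zero] at e
      rw [← e]
      noncomm_ring
    have hrel' : ∀ z w, D u * z * D w = 0 := by
      intro z w
      have e1 := hrel u (z * w)
      have e2 := hrel u z
      rw [sub_self, zero_add] at e1 e2
      rw [hDder, mul_add, ← mul_assoc, e2, zero_mul, zero_add] at e1
      rw [mul_assoc]; exact e1
    have hDu : D u = 0 := semiprime_cstar _ (fun z => hrel' z u)
    rw [hTaa, hDu, add_zero]

/-- **Main theorem**: Jordan epimorphism. -/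
theorem map_jordan (T : A →ₗ[ℂ] B) (h1 : T 1 = 1) (hs : Function.Surjective T)
    (hinv : ∀ x, IsUnit x → IsUnit (T x)) (a b : A) :
    T (a * b + b * a) = T a * T b + T b * T a := by
  have h := map_sq T h1 hs hinv (a + b)
  have e : (a + b) * (a + b) = a * a + b * b + (a * b + b * a) := by noncomm_ring
  rw [e, map_add T (a * a + b * b), map_add T (a * a), map_sq T h1 hs hinv a,
    map_sq T h1 hs hinv b, map_add T a b] at h
  have h3 : T (a * b + b * a) = (T a + T b) * (T a + T b) - (T a * T a + T b * T b) := by
    rw [← h]; abel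
  rw [h3]
  noncomm_ring

end Pool.Agent.Lib.Pa5bb4a
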