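import Pool.Agent.Lib.Pa5bb4a.SR

/-!
Local maximum principle for the spectral radius of an analytic function with values in a complex
Banach algebra: if `r (f z) ≤ r (f 0)` on a disc around `0` then `r (f z) = r (f 0)` on the disc.
-/

open Filter Topology Complex Metric

namespace Pool.Agent.Lib.Pa5bb4a

variable {B : Type*} [NormedRing B] [NormedAlgebra ℂ B] [CompleteSpace B]

omit [NormedAlgebra ℂ B] [CompleteSpace B] in
theorem pow_two_mono {x : B} {m : ℝ} (hm : 0 ≤ m) {k l : ℕ} (hkl : k ≤ l)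
    (h : ‖x ^ (2 ^ k)‖ ≤ m ^ (2 ^ k)) : ‖x ^ (2 ^ l)‖ ≤ m ^ (2 ^ l) := by
  induction l, hkl using Nat.le_induction with
  | base => exact h
  | succ l _ ih =>
    have e1 : x ^ (2 ^ (l + 1)) = x ^ (2 ^ l) * x ^ (2 ^ l) := by
      rw [← pow_add]; congr 1; ring
    have e2 : m ^ (2 ^ (l + 1)) = m ^ (2 ^ l) * m ^ (2 ^ l) := by
      rw [← pow_add]; congr 1; ring
    rw [e1, e2]
    exact (norm_mul_le _ _).trans (mul_le_mul ih ih (norm_nonneg _) (by positivity))

/-- Dini type argument, for a function continuous on a compact set. -/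
theorem exists_pow_le_of_compactOn [Nontrivial B] {f : ℂ → B} {K : Set ℂ} (hK : IsCompact K)
    (hf : ContinuousOn f K) {m m' : ℝ} (hm : 0 ≤ m) (hm' : m < m') (h : ∀ z ∈ K, SR (f z) m) :
    ∃ k₀ : ℕ, ∀ k ≥ k₀, ∀ z ∈ K, ‖f z ^ (2 ^ k)‖ ≤ m' ^ (2 ^ k) := by
  have hpos : 0 ≤ m' := hm.trans hm'.le
  have h1 : ∀ z ∈ K, ∃ k : ℕ, ‖f z ^ (2 ^ k)‖ < m' ^ (2 ^ k) := by
    intro z hz
    have h2 := (h z hz).eventually_pow hm hm'
    have h3 : Tendsto (fun k : ℕ => 2 ^ k) atTop atTop :=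
      tendsto_pow_atTop_atTop_of_one_lt one_lt_two
    exact (h3.eventually h2).exists
  choose! κ hκ using h1
  obtain ⟨t, ht, hcov⟩ := hK.elim_nhdsWithin_subcover
    (fun z => {w | ‖f w ^ (2 ^ κ z)‖ < m' ^ (2 ^ κ z)})
    (fun z hz => by
      have hc : ContinuousWithinAt (fun w => ‖f w ^ (2 ^ κ z)‖) K z :=
        ((hf.pow _).norm) z hz
      exact hc.eventually_lt_const (hκ z hz))
  refine ⟨t.sup κ, fun k hk z hz => ?_⟩
  obtain ⟨w, hw, hzw⟩ := Set.mem_iUnion₂.mp (hcov hz)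
  exact pow_two_mono hpos ((Finset.le_sup hw).trans hk) (le_of_lt hzw)

omit [NormedAlgebra ℂ B] [CompleteSpace B] in
theorem norm_listProd_le [NormOneClass B] {α : Type*} (F : α → B) {b : ℝ} (hb : 0 ≤ b)
    (L : List α) (h : ∀ c ∈ L, ‖F c‖ ≤ b) : ‖(L.map F).prod‖ ≤ b ^ L.length := by
  induction L with
  | nil => simp
  | cons c L ih =>
    rw [List.map_cons, List.prod_cons, List.length_cons, pow_succ']
    exact (norm_mul_le _ _).trans (mul_le_mul (h c (by simp))
      (ih fun c' hc' => h c' (by simp [hc'])) (norm_nonneg _) hb)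

omit [NormedAlgebra ℂ B] [CompleteSpace B] in
theorem norm_listProd_le' [NormOneClass B] {α : Type*} (F : α → B) {a b : ℝ} (ha : 0 ≤ a)
    (hb : 0 ≤ b) (L : List α) (h : ∀ c ∈ L, ‖F c‖ ≤ b) (h' : ∃ c ∈ L, ‖F c‖ ≤ a) :
    ‖(L.map F).prod‖ ≤ a * b ^ (L.length - 1) := by
  induction L with
  | nil => obtain ⟨c, hc, -⟩ := h'; simp at hc
  | cons c L ih =>
    rw [List.map_cons, List.prod_cons, List.length_cons, Nat.add_sub_cancel]
    have hL : ∀ c' ∈ L, ‖F c'‖ ≤ b := fun c' hc' => h c' (by simp [hc'])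
    obtain ⟨c', hc', hca⟩ := h'
    rcases List.mem_cons.1 hc' with rfl | hc'
    · exact (norm_mul_le _ _).trans (mul_le_mul hca (norm_listProd_le F hb L hL)
        (norm_nonneg _) ha)
    · have h1 := ih hL ⟨c', hc', hca⟩
      have hlen : 0 < L.length := List.length_pos_of_mem hc'
      calc ‖F c * (L.map F).prod‖ ≤ ‖F c‖ * ‖(L.map F).prod‖ := norm_mul_le _ _
        _ ≤ b * (a * b ^ (L.length - 1)) := mul_le_mul (h c (by simp)) h1 (norm_nonneg _) hb
        _ = a * b ^ L.length := by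
          obtain ⟨n, hn⟩ : ∃ n, L.length = n + 1 := ⟨L.length - 1, by omega⟩
          rw [hn, Nat.add_sub_cancel, pow_succ]; ring

/-- **Local maximum principle** for the spectral radius. -/
theorem local_max_SR [NormOneClass B] {f : ℂ → B} {R : ℝ} (hf : DifferentiableOn ℂ f (ball 0 R))
    (h : ∀ z ∈ ball (0 : ℂ) R, ∀ m, SR (f 0) m → SR (f z) m) :
    ∀ z ∈ ball (0 : ℂ) R, ∀ m, SR (f z) m → SR (f 0) m := by
  have : Nontrivial B := NormOneClass.nontrivial
  intro z hz m hm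
  by_contra hcon
  -- the spectral radius of `f 0` is attained
  obtain ⟨μ, hμ, hμr⟩ := spectrum.exists_nnnorm_eq_spectralRadius (f 0)
  set M : ℝ := ‖μ‖ with hM
  have hSM : SR (f 0) M := by
    intro ν hν
    have h1 : (‖ν‖₊ : ENNReal) ≤ spectralRadius ℂ (f 0) :=
      le_iSup₂_of_le (α := ENNReal) ν hν le_rfl
    rw [← hμr, ENNReal.coe_le_coe] at h1
    exact_mod_cast h1
  have hmM : m < M := by
    by_contra hle
    exact hcon (hSM.mono (not_lt.1 hle))
  have hm0 : 0 ≤ m := by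
    obtain ⟨ν, hν⟩ := spectrum.nonempty (f z)
    exact (norm_nonneg _).trans (hm ν hν)
  have hM0 : 0 < M := hm0.trans_lt hmM
  -- intermediate value
  obtain ⟨m₁, hm₁, hm₁M⟩ := exists_between hmM
  have hm₁0 : 0 < m₁ := hm0.trans_lt hm₁
  -- `z ≠ 0`
  have hz0 : z ≠ 0 := by
    rintro rfl
    exact hcon hm
  set ρ : ℝ := ‖z‖ with hρ
  have hρ0 : 0 < ρ := norm_pos_iff.2 hz0
  have hρR : ρ < R := by simpa using hz
  have hsub : closedBall (0 : ℂ) ρ ⊆ ball 0 R := closedBall_subset_ball hρR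
  have hsub' : sphere (0 : ℂ) ρ ⊆ ball 0 R := sphere_subset_closedBall.trans hsub
  -- near `z` the powers are small
  obtain ⟨k₁, hk₁⟩ : ∃ k : ℕ, ‖f z ^ (2 ^ k)‖ < m₁ ^ (2 ^ k) := by
    have h3 : Tendsto (fun k : ℕ => 2 ^ k) atTop atTop :=
      tendsto_pow_atTop_atTop_of_one_lt one_lt_two
    exact (h3.eventually (hm.eventually_pow hm0 hm₁)).exists
  have hcz : ContinuousAt (fun w => ‖f w ^ (2 ^ k₁)‖) z :=
    (((hf.continuousOn.pow _).norm).continuousAt (isOpen_ball.mem_nhds hz))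
  obtain ⟨ε, hε, hball⟩ := Metric.eventually_nhds_iff_ball.1 (hcz.eventually_lt_const hk₁)
  -- finitely many rotations
  obtain ⟨t, ht, hcov⟩ := (isCompact_sphere (0 : ℂ) ρ).elim_nhds_subcover
    (fun w => {w' | (z / w) * w' ∈ ball z ε}) (fun w hw => by
      have hw0 : w ≠ 0 := by
        rintro rfl
        simp at hw
        exact hρ0.ne hw
      have hc : ContinuousAt (fun w' => (z / w) * w') w := by fun_prop
      apply hc.eventually_mem (isOpen_ball.mem_nhds _)
      rw [div_mul_cancel₀ _ hw0]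
      exact mem_ball_self hε)
  set L : List ℂ := t.toList.map (fun w => z / w) with hL
  have hLnorm : ∀ c ∈ L, ‖c‖ = 1 := by
    intro c hc
    rw [hL, List.mem_map] at hc
    obtain ⟨w, hw, rfl⟩ := hc
    have hw' : ‖w‖ = ρ := by simpa using ht w (Finset.mem_toList.1 hw)
    rw [norm_div, hw', ← hρ, div_self hρ0.ne']
  have hLcov : ∀ w ∈ sphere (0 : ℂ) ρ, ∃ c ∈ L, c * w ∈ ball z ε := by
    intro w hw
    obtain ⟨w', hw', hww'⟩ := Set.mem_iUnion₂.mp (hcov hw)
    exact ⟨z / w', List.mem_map.2 ⟨w', Finset.mem_toList.2 hw', rfl⟩, hww'⟩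
  have hLpos : 0 < L.length := by
    obtain ⟨c, hc, -⟩ := hLcov z (by simp [hρ])
    exact List.length_pos_of_mem hc
  -- choose `M'`
  have hlim : Tendsto (fun x : ℝ => m₁ * x ^ (L.length - 1)) (𝓝[>] M)
      (𝓝 (m₁ * M ^ (L.length - 1))) :=
    (Continuous.tendsto (by fun_prop) M).mono_left nhdsWithin_le_nhds
  have hlt : m₁ * M ^ (L.length - 1) < M ^ L.length := by
    obtain ⟨n, hn⟩ : ∃ n, L.length = n + 1 := ⟨L.length - 1, by omega⟩
    rw [hn, Nat.add_sub_cancel, pow_succ']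
    exact mul_lt_mul_of_pos_right hm₁M (pow_pos hM0 _)
  obtain ⟨M', hM'1, hM'2⟩ := ((hlim.eventually_lt_const hlt).and self_mem_nhdsWithin).exists
  have hMM' : M < M' := hM'2
  -- the powers are uniformly bounded on the circle
  obtain ⟨k₂, hk₂⟩ := exists_pow_le_of_compactOn (isCompact_sphere (0 : ℂ) ρ)
    (hf.continuousOn.mono hsub') hM0.le hMM' (fun w hw => h w (hsub' hw) M hSM)
  set k := max k₁ k₂ with hk
  set n := 2 ^ k with hn
  have hn0 : n ≠ 0 := by positivity
  -- the product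
  set G : ℂ → B := fun w => (L.map (fun c => f (c * w) ^ n)).prod with hG
  have hGd : DifferentiableOn ℂ G (ball 0 R) := by
    have key : ∀ L' : List ℂ, (∀ c ∈ L', ‖c‖ = 1) →
        DifferentiableOn ℂ (fun w => (L'.map (fun c => f (c * w) ^ n)).prod) (ball 0 R) := by
      intro L'
      induction L' with
      | nil => intro _; simp
      | cons c L' ih =>
        intro hL'
        simp only [List.map_cons, List.prod_cons]
        refine DifferentiableOn.mul (DifferentiableOn.pow ?_ n)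
          (ih fun c' hc' => hL' c' (by simp [hc']))
        refine hf.comp (by fun_prop) ?_
        intro w hw
        have h1 : ‖c‖ = 1 := hL' c (by simp)
        simpa [h1] using hw
    exact key L hLnorm
  have hfr : ∀ w ∈ frontier (ball (0 : ℂ) ρ), ‖G w‖ ≤ m₁ ^ n * (M' ^ n) ^ (L.length - 1) := by
    intro w hw
    rw [frontier_ball _ hρ0.ne'] at hw
    have hw' : ‖w‖ = ρ := by simpa using hw
    apply norm_listProd_le' _ (by positivity) (by have := hM0.trans hMM'; positivity)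
    · intro c hc
      apply hk₂ k (le_max_right _ _)
      simp [hLnorm c hc, hw']
    · obtain ⟨c, hc, hcw⟩ := hLcov w hw
      refine ⟨c, hc, ?_⟩
      exact pow_two_mono hm₁0.le (le_max_left _ _) (hball _ hcw).le
  have hdcl : DiffContOnCl ℂ G (ball 0 ρ) :=
    (hGd.mono (by rw [closure_ball _ hρ0.ne']; exact hsub)).diffContOnCl
  have hG0 : ‖G 0‖ ≤ m₁ ^ n * (M' ^ n) ^ (L.length - 1) :=
    Complex.norm_le_of_forall_mem_frontier_norm_le isBounded_ball hdcl hfr
      (subset_closure (mem_ball_self hρ0))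
  have hG0' : G 0 = f 0 ^ (n * L.length) := by
    simp only [hG, mul_zero, List.map_const', List.prod_replicate, ← pow_mul]
  have hlow : M ^ (n * L.length) ≤ ‖f 0 ^ (n * L.length)‖ := by
    have h1 : μ ^ (n * L.length) ∈ spectrum ℂ (f 0 ^ (n * L.length)) :=
      spectrum.pow_mem_pow _ _ hμ
    have h2 := spectrum.norm_le_norm_of_mem h1
    rwa [norm_pow] at h2
  have hfin : (m₁ * M' ^ (L.length - 1)) ^ n < (M ^ L.length) ^ n :=
    pow_lt_pow_left₀ hM'1 (by have := hM0.trans hMM'; positivity) hn0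
  have e1 : m₁ ^ n * (M' ^ n) ^ (L.length - 1) = (m₁ * M' ^ (L.length - 1)) ^ n := by
    rw [mul_pow, ← pow_mul, ← pow_mul, mul_comm n]
  have e2 : M ^ (n * L.length) = (M ^ L.length) ^ n := by
    rw [← pow_mul, mul_comm n]
  rw [hG0', e1] at hG0
  rw [e2] at hlow
  linarith

/-- The local maximum principle in terms of `spectralRadius`. -/
theorem local_max_spectralRadius [NormOneClass B] {f : ℂ → B} {R : ℝ}
    (hf : DifferentiableOn ℂ f (ball 0 R))
    (h : ∀ z ∈ ball (0 : ℂ) R, spectralRadius ℂ (f z) ≤ spectralRadius ℂ (f 0)) :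
    ∀ z ∈ ball (0 : ℂ) R, spectralRadius ℂ (f z) = spectralRadius ℂ (f 0) := by
  have : Nontrivial B := NormOneClass.nontrivial
  have hSR : ∀ (x : B) (m : ℝ), 0 ≤ m → (SR x m ↔ spectralRadius ℂ x ≤ ENNReal.ofReal m) := by
    intro x m hm
    unfold SR spectralRadius
    rw [iSup₂_le_iff]
    refine forall₂_congr fun μ _ => ?_
    rw [ENNReal.le_ofReal_iff_toReal_le (by simp) hm]
    simp
  have hfin : ∀ x : B, spectralRadius ℂ x ≠ ⊤ := fun x =>
    ((spectrum.spectralRadius_le_nnnorm x).trans_lt ENNReal.coe_lt_top).ne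
  have hpos : ∀ (x : B) (m : ℝ), SR x m → 0 ≤ m := by
    intro x m hx
    obtain ⟨ν, hν⟩ := spectrum.nonempty x
    exact (norm_nonneg _).trans (hx ν hν)
  intro z hz
  refine le_antisymm (h z hz) ?_
  have key := local_max_SR hf (fun w hw m hm => by
    have hm0 := hpos _ _ hm
    rw [hSR _ _ hm0] at hm ⊢
    exact (h w hw).trans hm) z hz (spectralRadius ℂ (f z)).toReal (by
      rw [hSR _ _ ENNReal.toReal_nonneg, ENNReal.ofReal_toReal (hfin _)])
  rwa [hSR _ _ ENNReal.toReal_nonneg, ENNReal.ofReal_toReal (hfin _)] at key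

end Pool.Agent.Lib.Pa5bb4a
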